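import Mathlib
import Pool.Agent.Lib.Ribet4b482e.Exist

/-!
# MP_b60633_nt: definitions (helper11)

Goal: the irrationality exponent of `Γ(1/4)` is at most `10 ^ 15`.

`Λ = w ℤ[i]`, `w > 0`, `g₂ = 4`, `g₃ = 0`; `σ = sigmaW L`, `ζ = zetaW L` (library `Ribet4b482e`),
`℘ = L.weierstrassP`, `℘' = L.derivWeierstrassP`; `η(l) = etaW L l = ζ(z + l) - ζ(z)`.
-/

set_option autoImplicit false

noncomputable section

namespace Pool.Agent.MPb60633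

open Complex PowerSeries Pool.Agent.Lib.Ribet4b482e

/-- `Λ = w ℤ[i]` with `w > 0` real. -/
structure Sq (L : PeriodPair) (w : ℝ) : Prop where
  pos : 0 < w
  one : L.ω₁ = (w : ℂ)
  two : L.ω₂ = I * (w : ℂ)

/-- `Λ = w ℤ[i]` with `w > 0` real and `g₂ = 4`. -/
structure Lem (L : PeriodPair) (w : ℝ) : Prop extends Sq L w where
  g2 : L.g₂ = 4

/-- The lemniscate lattice with its constants. -/
structure LemP (L : PeriodPair) (w : ℝ) : Prop extends Lem L w where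
  P1 : L.weierstrassP ((w : ℂ) / 2) = 1
  eta : etaW L (w : ℂ) = ((Real.pi / w : ℝ) : ℂ)
  two_le : 2 ≤ w
  le_pi : w ≤ Real.pi
  gam : w ^ 2 = Real.Gamma (1 / 4) ^ 4 / (8 * Real.pi)

/-- `κ = (a + 1/2) + b i`. -/
def kap (a b : ℤ) : ℂ := ((a : ℂ) + 1 / 2) + (b : ℂ) * I

/-! ## Entire functions -/

/-- `A1 = σ' = ζ σ`. -/
def A1 (L : PeriodPair) (z : ℂ) : ℂ := deriv (sigmaW L) z

/-- `A2 = σ' ^ 2 - σ σ'' = ℘ σ ^ 2`. -/
def A2 (L : PeriodPair) (z : ℂ) : ℂ :=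
  deriv (sigmaW L) z ^ 2 - sigmaW L z * iteratedDeriv 2 (sigmaW L) z

/-- `A3 = 3 σ σ' σ'' - σ ^ 2 σ''' - 2 σ' ^ 3 = ℘' σ ^ 3`. -/
def A3 (L : PeriodPair) (z : ℂ) : ℂ :=
  3 * sigmaW L z * deriv (sigmaW L) z * iteratedDeriv 2 (sigmaW L) z
    - sigmaW L z ^ 2 * iteratedDeriv 3 (sigmaW L) z - 2 * deriv (sigmaW L) z ^ 3

/-- `z ^ i ζ ^ j ℘ ^ k ℘' ^ e σ ^ P` as an entire function (for `j + 2 k + 3 e ≤ P`). -/
def gfun (L : PeriodPair) (P i j k e : ℕ) (z : ℂ) : ℂ :=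
  z ^ i * A1 L z ^ j * A2 L z ^ k * A3 L z ^ e * sigmaW L z ^ (P - j - 2 * k - 3 * e)

/-- The Gaussian exponent `π |z|² / (2 w²)`. -/
def Gs (w : ℝ) (z : ℂ) : ℝ := Real.pi * ‖z‖ ^ 2 / (2 * w ^ 2)

/-! ## Power series -/

/-- Iteration for `Z = X ^ 2 - 3 Z ^ 2 - 2 Z ^ 3`. -/
def Zit : ℕ → PowerSeries ℤ
  | 0 => 0
  | k + 1 => PowerSeries.X ^ 2 - 3 * (Zit k) ^ 2 - 2 * (Zit k) ^ 3

/-- `Z`, `℘ = 1 + 2 Z(s)` in the parameter `s = ℘' / 4`. -/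
def Zs : PowerSeries ℤ := PowerSeries.mk fun n => PowerSeries.coeff n (Zit (n + 1))

/-- `P = 1 / (1 + 6 Z + 6 Z ^ 2) = dz / ds`. -/
def Ps : PowerSeries ℤ := PowerSeries.invOfUnit (1 + 6 * Zs + 6 * Zs ^ 2) 1

/-- `ψ = ∫ P`. -/
def psiQ : PowerSeries ℚ :=
  PowerSeries.mk fun n => ((PowerSeries.coeff (n - 1) Ps : ℤ) : ℚ) / n

/-- `ζ~ = - ∫ (1 + 2 Z) P`. -/
def zetQ : PowerSeries ℚ :=
  PowerSeries.mk fun n => -((PowerSeries.coeff (n - 1) ((1 + 2 * Zs) * Ps) : ℤ) : ℚ) / n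

/-- `Z` over `ℂ`. -/
def ZC : PowerSeries ℂ := PowerSeries.map (Int.castRingHom ℂ) Zs

/-- `P` over `ℂ`. -/
def PC : PowerSeries ℂ := PowerSeries.map (Int.castRingHom ℂ) Ps

/-- `ψ` over `ℂ`. -/
def psiC : PowerSeries ℂ := PowerSeries.map (algebraMap ℚ ℂ) psiQ

/-- `ζ~` over `ℂ`. -/
def zetC : PowerSeries ℂ := PowerSeries.map (algebraMap ℚ ℂ) zetQ

/-- The partial sums of `∑ ‖f_n‖ r ^ n` are at most `B`. -/
def Bd (f : PowerSeries ℂ) (r B : ℝ) : Prop :=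
  ∀ N : ℕ, ∑ n ∈ Finset.range N, ‖PowerSeries.coeff n f‖ * r ^ n ≤ B

/-- Value of a power series. -/
def evs (f : PowerSeries ℂ) (s : ℂ) : ℂ := ∑' n : ℕ, PowerSeries.coeff n f * s ^ n

/-- The entry `[s ^ t] (x + ψ) ^ i (y + ζ~) ^ j (1 + 2 Z) ^ k (4 s) ^ e`. -/
def ent (x y : ℂ) (t i j k e : ℕ) : ℂ :=
  PowerSeries.coeff t ((PowerSeries.C x + psiC) ^ i * (PowerSeries.C y + zetC) ^ j *
    (1 + 2 * ZC) ^ k * (4 * PowerSeries.X) ^ e)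

/-- The rational number `[s ^ t] ψ ^ a ζ~ ^ b (1 + 2 Z) ^ k (4 s) ^ e`. -/
def cf (a b k e t : ℕ) : ℚ :=
  PowerSeries.coeff t (psiQ ^ a * zetQ ^ b *
    (PowerSeries.map (Int.castRingHom ℚ) ((1 + 2 * Zs) ^ k * (4 * PowerSeries.X) ^ e)))

/-- The common denominator. -/
def Den (l T : ℕ) : ℕ := ∏ h ∈ Finset.Icc 1 (2 * l), Nat.lcmUpto (T / h)

/-! ## Linear algebra and Wronskians -/

/-- `∑_{i, j < N} (u ^ i / i!) (v ^ j / j!) D₁ ^ i D₂ ^ j F₀`. -/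
def GG {V : Type*} [AddCommGroup V] [Module ℂ V] (D₁ D₂ : V →ₗ[ℂ] V) (N : ℕ) (F₀ : V)
    (u v : ℂ) : V :=
  ∑ i ∈ Finset.range N, ∑ j ∈ Finset.range N,
    (u ^ i / (i.factorial : ℂ) * (v ^ j / (j.factorial : ℂ))) • (D₁ ^ i * D₂ ^ j) F₀

/-- Wronskian. -/
def Wr {l : ℕ} (f : Fin l → ℂ → ℂ) (z : ℂ) : ℂ :=
  Matrix.det (Matrix.of fun i j : Fin l => iteratedDeriv (i : ℕ) (f j) z)

/-- Polynomials in `z, ζ, ℘, ℘'`. -/
abbrev R4 : Type := MvPolynomial (Fin 4) ℂ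

/-- Degrees: `≤ l` in `z` and `ζ`, `< n` in `℘`, `≤ 1` in `℘'`. -/
def Box (l n : ℕ) : Submodule ℂ R4 :=
  MvPolynomial.restrictSupport ℂ {c : Fin 4 →₀ ℕ | c 0 ≤ l ∧ c 1 ≤ l ∧ c 2 < n ∧ c 3 < 2}

/-- `∂/∂z` and `∂/∂ζ` as linear maps. -/
def d0 : R4 →ₗ[ℂ] R4 := (MvPolynomial.pderiv (R := ℂ) (0 : Fin 4)).toLinearMap
/-- `∂/∂ζ` as a linear map. -/
def d1 : R4 →ₗ[ℂ] R4 := (MvPolynomial.pderiv (R := ℂ) (1 : Fin 4)).toLinearMap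

/-- The translation `F(z + a, ζ + b, ℘, ℘')`. -/
def Tr (a b : ℂ) : R4 →ₗ[ℂ] R4 :=
  (MvPolynomial.aeval (R := ℂ) ![(MvPolynomial.X 0 + MvPolynomial.C a : R4),
    (MvPolynomial.X 1 + MvPolynomial.C b : R4), (MvPolynomial.X 2 : R4),
    (MvPolynomial.X 3 : R4)]).toLinearMap

/-- The entire function `F(z, ζ, ℘, ℘') σ ^ P`. -/
def Hf (L : PeriodPair) (P : ℕ) (F : R4) (z : ℂ) : ℂ :=
  ∑ c ∈ F.support, F.coeff c * gfun L P (c 0) (c 1) (c 2) (c 3) z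

/-! ## Columns, rows, integer polynomials -/

/-- Columns `(i, j, k, e)`. -/
abbrev Col (l n : ℕ) : Type := Fin (l + 1) × Fin (l + 1) × Fin n × Fin 2

/-- The entry of the row `κ = kap a b`, `t` at the column `c`, for the pair `(α, β)`. -/
def entC {l n : ℕ} (α β : ℂ) (a b : ℤ) (t : ℕ) (c : Col l n) : ℂ :=
  ent (kap a b * α) (kap a (-b) * β) t c.1 c.2.1 c.2.2.1 c.2.2.2

/-- Real and imaginary part of the row: `part = 0`: half the sum of the rows at `κ` and `κ̄`,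
`part = 1`: the difference divided by `2 i`. -/
def entR {l n : ℕ} (α β : ℂ) (a b : ℤ) (t : ℕ) (part : Fin 2) (c : Col l n) : ℂ :=
  if part = 0 then (entC α β a b t c + entC α β a (-b) t c) / 2
  else (entC α β a b t c - entC α β a (-b) t c) / (2 * I)

/-- Real (`part = 0`) or imaginary (`part = 1`) part of `(2 κ) ^ u (2 κ̄) ^ v`. -/
def gint (part : Fin 2) (a b : ℤ) (u v : ℕ) : ℤ :=
  if part = 0 then ((⟨2 * a + 1, 2 * b⟩ : GaussianInt) ^ u * (⟨2 * a + 1, -(2 * b)⟩ : GaussianInt) ^ v).re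
  else ((⟨2 * a + 1, 2 * b⟩ : GaussianInt) ^ u * (⟨2 * a + 1, -(2 * b)⟩ : GaussianInt) ^ v).im

/-- The integer `Den * cf`. -/
def cz (l T a b k e t : ℕ) : ℤ := ((Den l T : ℚ) * cf a b k e t).num

/-- The integer polynomial whose value at `α` is `2 ^ (i + j) (8 q ^ 4) ^ j α ^ (3 j) Den` times the
entry `entR` for `β = p ^ 4 / (8 q ^ 4 α ^ 3)`. -/
def Epol {l n : ℕ} (T : ℕ) (p q : ℤ) (a b : ℤ) (t : ℕ) (part : Fin 2) (c : Col l n) :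
    Polynomial ℤ :=
  ∑ a' ∈ Finset.range ((c.1 : ℕ) + 1), ∑ b' ∈ Finset.range ((c.2.1 : ℕ) + 1),
    Polynomial.C (((c.1 : ℕ).choose a' : ℤ) * ((c.2.1 : ℕ).choose b' : ℤ) *
      gint part a b (c.1 - a') (c.2.1 - b') * p ^ (4 * ((c.2.1 : ℕ) - b')) * 2 ^ a' *
      (16 * q ^ 4) ^ b' * cz l T a' b' c.2.2.1 c.2.2.2 t) *
    Polynomial.X ^ ((c.1 : ℕ) - a' + 3 * b')

/-- Length of a polynomial. -/
def len (G : Polynomial ℤ) : ℝ := ∑ i ∈ Finset.range (G.natDegree + 1), |(G.coeff i : ℝ)|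

/-- Mahler measure of an integer polynomial. -/
def mah (G : Polynomial ℤ) : ℝ := (G.map (Int.castRingHom ℂ)).mahlerMeasure

/-! ## The interpolation determinant -/

/-- The functional `g ↦ [s ^ t] g(z(s)) σ(z(s)) ^ (-P)` at `z ^ m`, `z(s) = κ w + ψ(s)`. -/
def xco (L : PeriodPair) (w : ℝ) (a b : ℤ) (t P m : ℕ) : ℂ :=
  (2 * Real.pi * I)⁻¹ * ∮ s in C(0, 1 / 8), s ^ (-((t : ℤ) + 1)) *
    ((kap a b * w + evs psiC s) ^ m / sigmaW L (kap a b * w + evs psiC s) ^ P)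

/-- Taylor coefficients at `0` of `gfun`. -/
def yco (L : PeriodPair) (P i j k e m : ℕ) : ℂ :=
  iteratedDeriv m (gfun L P i j k e) 0 / (m.factorial : ℂ)

/-- The bound for the main terms. -/
def KK (w : ℝ) (l P T : ℕ) (ρ : ℝ) : ℝ :=
  8 ^ T * Real.exp (6 * P) * (1 + Real.exp 1 * ρ) ^ (2 * l) *
    Real.exp (P * (600 + Real.pi * (Real.exp 1 * ρ) ^ 2 / (2 * w ^ 2)))

/-! ## The irrationality exponent -/

/-- `μ` is admissible for `x`: `0 < |x - p / q| < 1 / q ^ μ` for infinitely many pairs. -/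
def Adm (x μ : ℝ) : Prop :=
  {pq : ℤ × ℤ | 1 ≤ pq.2 ∧ 0 < |x - pq.1 / pq.2| ∧ |x - pq.1 / pq.2| < 1 / (pq.2 : ℝ) ^ μ}.Infinite

/-- The irrationality exponent. -/
def irrExp (x : ℝ) : ENNReal := sSup {m : ENNReal | ∃ μ : ℝ, 0 ≤ μ ∧ m = ENNReal.ofReal μ ∧ Adm x μ}

end Pool.Agent.MPb60633
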