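import Pool.Agent.Lib.MP_b60633_nt.W.A1
import Pool.Agent.Lib.MP_b60633_nt.W.A2
import Pool.Agent.Lib.MP_b60633_nt.W.A3
import Pool.Agent.Lib.MP_b60633_nt.W.A4
import Pool.Agent.Lib.MP_b60633_nt.W.A5
import Pool.Agent.Lib.MP_b60633_nt.W.A6
import Pool.Agent.Lib.MP_b60633_nt.W.D1
import Pool.Agent.Lib.MP_b60633_nt.W.D2
import Pool.Agent.Lib.MP_b60633_nt.W.D3
import Pool.Agent.Lib.MP_b60633_nt.W.D4
import Pool.Agent.Lib.MP_b60633_nt.W.E1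
import Pool.Agent.Lib.MP_b60633_nt.W.E2
import Pool.Agent.Lib.MP_b60633_nt.W.E3
import Pool.Agent.Lib.MP_b60633_nt.W.E4
import Pool.Agent.Lib.MP_b60633_nt.W.E5
import Pool.Agent.Lib.MP_b60633_nt.W.E6
import Pool.Agent.Lib.MP_b60633_nt.W.E7
import Pool.Agent.Lib.MP_b60633_nt.W.E8
import Pool.Agent.Lib.MP_b60633_nt.W.E9
import Pool.Agent.Lib.MP_b60633_nt.W.E10
import Pool.Agent.Lib.MP_b60633_nt.W.E11
import Pool.Agent.Lib.MP_b60633_nt.W.E12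
import Pool.Agent.Lib.MP_b60633_nt.W.E13
import Pool.Agent.Lib.MP_b60633_nt.W.F1
import Pool.Agent.Lib.MP_b60633_nt.W.F2
import Pool.Agent.Lib.MP_b60633_nt.W.F3
import Pool.Agent.Lib.MP_b60633_nt.W.F4
import Pool.Agent.Lib.MP_b60633_nt.W.F5
import Pool.Agent.Lib.MP_b60633_nt.W.G1
import Pool.Agent.Lib.MP_b60633_nt.W.G2
import Pool.Agent.Lib.MP_b60633_nt.W.G3
import Pool.Agent.Lib.MP_b60633_nt.W.G4
import Pool.Agent.Lib.MP_b60633_nt.W.S1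
import Pool.Agent.Lib.MP_b60633_nt.W.S2
import Pool.Agent.Lib.MP_b60633_nt.W.S3
import Pool.Agent.Lib.MP_b60633_nt.W.S4
import Pool.Agent.Lib.MP_b60633_nt.W.S5
import Pool.Agent.Lib.MP_b60633_nt.W.S6
import Pool.Agent.Lib.MP_b60633_nt.W.S7
import Pool.Agent.Lib.MP_b60633_nt.W.S8
import Pool.Agent.Lib.MP_b60633_nt.W.S9
import Pool.Agent.Lib.MP_b60633_nt.W.S10
import Pool.Agent.Lib.MP_b60633_nt.W.Z1
import Pool.Agent.Lib.MP_b60633_nt.W.Z2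
import Pool.Agent.Lib.MP_b60633_nt.W.Z3
import Pool.Agent.Lib.MP_b60633_nt.W.Z4
import Pool.Agent.Lib.MP_b60633_nt.W.Z5
import Pool.Agent.Lib.MP_b60633_nt.W.Z6
import Pool.Agent.Lib.MP_b60633_nt.W.Z7
import Pool.Agent.Lib.MP_b60633_nt.W.Z8
import Pool.Agent.Lib.MP_b60633_nt.W.Z9
import Pool.Agent.Lib.MP_b60633_nt.W.Z10
import Pool.Agent.Lib.MP_b60633_nt.W.Z11
import Pool.Agent.Lib.MP_b60633_nt.W.Z12
import Pool.Agent.Lib.MP_b60633_nt.W.Z13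
import Pool.Agent.Lib.MP_b60633_nt.W.Z14

/-!
# MP_b60633_nt: assembly (helper11)
-/

set_option autoImplicit false

namespace Pool.Agent.MPb60633

/-- Assembly of all modules: the measure. -/
theorem final_F4 : S_F4 := by
  have hE1 : S_E1 := t_E1
  have hE2 : S_E2 := t_E2 hE1
  have hE3 : S_E3 := t_E3 hE1
  have hE4 : S_E4 := t_E4 hE1 hE3
  have hE5 : S_E5 := t_E5
  have hE6 : S_E6 := t_E6 hE2 hE3 hE4 hE5
  have hE7 : S_E7 := t_E7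
  have hE8 : S_E8 := t_E8 hE7
  have hE9 : S_E9 := t_E9
  have hE10 : S_E10 := t_E10
  have hE11 : S_E11 := t_E11 hE8 hE9 hE10
  have hE12 : S_E12 := t_E12 hE10 hE11
  have hE13 : S_E13 := t_E13 hE8 hE9
  have hS1 : S_S1 := t_S1
  have hS2 : S_S2 := t_S2
  have hS3 : S_S3 := t_S3 hS1 hS2
  have hS4 : S_S4 := t_S4
  have hS5 : S_S5 := t_S5 hS4
  have hS6 : S_S6 := t_S6 hS1 hS3 hS4 hE9
  have hS7 : S_S7 := t_S7
  have hS8 : S_S8 := t_S8 hS7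
  have hS9 : S_S9 := t_S9
  have hS10 : S_S10 := t_S10 hS2 hS3
  have hZ1 : S_Z1 := t_Z1
  have hZ2 : S_Z2 := t_Z2 hZ1
  have hZ3 : S_Z3 := t_Z3
  have hZ4 : S_Z4 := t_Z4
  have hZ5 : S_Z5 := t_Z5
  have hZ6 : S_Z6 := t_Z6
  have hZ7 : S_Z7 := t_Z7
  have hZ8 : S_Z8 := t_Z8
  have hZ9 : S_Z9 := t_Z9 hZ8
  have hZ10 : S_Z10 := t_Z10 hZ2 hZ8
  have hZ11 : S_Z11 := t_Z11 hE10
  have hZ12 : S_Z12 := t_Z12
  have hZ13 : S_Z13 := t_Z13 hS1 hS2 hS3 hS4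
  have hZ14 : S_Z14 := t_Z14 hZ3 hZ4 hZ5 hZ6 hZ7 hZ9 hZ10 hZ11 hZ12 hZ13 hE9 hE12 hS6
  have hD1 : S_D1 := t_D1
  have hD2 : S_D2 := t_D2 hS2 hS3 hS4 hS5 hS6 hE12
  have hD3 : S_D3 := t_D3 hD2 hE12 hE13 hS3 hS6
  have hD4 : S_D4 := t_D4 hD1 hD3 hS10
  have hA1 : S_A1 := t_A1 hS8
  have hA2 : S_A2 := t_A2 hS8 hS10
  have hA3 : S_A3 := t_A3
  have hA4 : S_A4 := t_A4
  have hA5 : S_A5 := t_A5
  have hA6 : S_A6 := t_A6 hZ14 hA5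
  have hG4 : S_G4 := t_G4 t_G1 t_G2 t_G3
  have hF1 : S_F1 := t_F1 hA1 hA2 hA3 hA4 hA6 hD4 hS9
  have hF2 : S_F2 := t_F2 hS9
  have hF3 : S_F3 := t_F3
  exact t_F4 hF1 hF2 hF3 hG4 hE6

/-- The irrationality exponent. -/
theorem final_F5 : S_F5 := t_F5 final_F4

end Pool.Agent.MPb60633
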