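import Pool.Agent.Lib.MP_b60633_nt.Defs

/-!
# MP_b60633_nt, Spec S: power series (helper11)

Every `S_...` is a statement to be proved in its own file; the docstring contains the complete proof.
-/

set_option autoImplicit false

namespace Pool.Agent.MPb60633

open Complex PowerSeries Pool.Agent.Lib.Ribet4b482e

/-- **S1.** The algebraic identities of the power series.

Proof. (1) `Zit (k+1) - Zit k` is divisible by `X^(k+1)`, and `Zit k` has constant coefficient `0`: induction; the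
difference is `-3 (Z_k^2 - Z_{k-1}^2) - 2 (Z_k^3 - Z_{k-1}^3) = -(Z_k - Z_{k-1}) (3 (Z_k + Z_{k-1}) + 2 (..))` and the second
factor is divisible by `X`.  So the coefficient `n` of `Zit k` is the same for all `k > n`, `Zs ≡ Zit k mod X^k`, hence
`Zs ≡ X^2 - 3 Zs^2 - 2 Zs^3 mod X^k` for all `k`: equality.
(2) `Ps` is the inverse (`PowerSeries.mul_invOfUnit`/`invOfUnit_mul`) as the constant coefficient is `1`.
(3) Apply the derivation to `Zs + 3 Zs^2 + 2 Zs^3 = X^2`: `Zs' (1 + 6 Zs + 6 Zs^2) = 2 X`; multiply by `Ps`.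
(4) Over `ℂ`: apply `PowerSeries.map`; the coefficient `n` of the derivative of `psiQ` is
`(n + 1) · coeff n Ps / (n + 1)`. -/
def S_S1 : Prop :=
  (constantCoeff Zs = 0 ∧ Zs = X ^ 2 - 3 * Zs ^ 2 - 2 * Zs ^ 3 ∧ Ps * (1 + 6 * Zs + 6 * Zs ^ 2) = 1) ∧
  (constantCoeff ZC = 0 ∧ ZC = X ^ 2 - 3 * ZC ^ 2 - 2 * ZC ^ 3 ∧
    PC * (1 + 6 * ZC + 6 * ZC ^ 2) = 1 ∧ d⁄dX ℂ ZC = 2 * X * PC) ∧
  (d⁄dX ℂ psiC = PC ∧ d⁄dX ℂ zetC = -((1 + 2 * ZC) * PC) ∧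
    constantCoeff psiC = 0 ∧ constantCoeff zetC = 0)

/-- **S2.** Calculus of `Bd`.

Proof. Product: `∑_{n<N} ‖(fg)_n‖ r^n ≤ ∑_{n<N} ∑_{i+j=n} ‖f_i‖ r^i ‖g_j‖ r^j ≤ (∑_{i<N}) (∑_{j<N})`.
Inverse: let `f (1 - g) = 1`, `f = 1 + f g`.  Let `S_N = ∑_{n<N} ‖f_n‖ r^n`; then `S_N ≤ 1 + S_N B` by the product
estimate for partial sums, so `S_N ≤ 1/(1-B)`. -/
def S_S2 : Prop := ∀ (r : ℝ), 0 ≤ r →
  (∀ (f g : PowerSeries ℂ) (A B : ℝ), Bd f r A → Bd g r B → Bd (f + g) r (A + B)) ∧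
  (∀ (f g : PowerSeries ℂ) (A B : ℝ), Bd f r A → Bd g r B → Bd (f * g) r (A * B)) ∧
  (∀ (f : PowerSeries ℂ) (A : ℝ) (k : ℕ), Bd f r A → Bd (f ^ k) r (A ^ k)) ∧
  (∀ x : ℂ, Bd (PowerSeries.C x) r ‖x‖) ∧ Bd PowerSeries.X r r ∧
  (∀ (f : PowerSeries ℂ) (A : ℝ) (n : ℕ), Bd f r A → ‖coeff n f‖ * r ^ n ≤ A) ∧
  (∀ (f g : PowerSeries ℂ) (B : ℝ), f * (1 - g) = 1 → Bd g r B → B < 1 → Bd f r (1 / (1 - B)))

/-- **S3.** The bounds.  (Uses `S_S1`, `S_S2`.)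

Proof. `ZC`: let `S_N = ∑_{n<N} ‖z_n‖ r^n`.  As `z_0 = 0`, the coefficients of `ZC^2`, `ZC^3` with index `< N + 1` only
involve `z_i` with `i < N`, so `S_{N+1} ≤ r^2 + 3 S_N^2 + 2 S_N^3`, and `S_N ≤ B` by induction if
`r^2 + 3 B^2 + 2 B^3 ≤ B`.  `r = 1/4`, `B = 9/100`: `0.0625 + 0.0243 + 0.0015 ≤ 0.09`; `r = 1/8`, `B = 1/50`:
`0.015625 + 0.0012 + 0.000016 ≤ 0.02`.
`PC`: `PC (1 - g) = 1` with `g = -(6 ZC + 6 ZC^2)`, `Bd g (1/4) 0.5886`, `Bd g (1/8) 0.1224`; so `PC` has the bounds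
`1/0.4114 ≤ 5/2` (even `≤ 2.44`) and `1/0.8776 ≤ 1.14`.
`psiC`: `‖coeff n psiC‖ r^n ≤ r ‖coeff (n-1) PC‖ r^(n-1)` for `n ≥ 1`: `Bd psiC r (r · bound of PC)`:
`0.25 · 2.44 ≤ 7/10`, `0.125 · 1.14 ≤ 1/6`.  `zetC`: the same with `(1 + 2 ZC) PC`: `0.25 · 1.18 · 2.44 ≤ 3/4`,
`0.125 · 1.04 · 1.14 ≤ 1/6`. -/
def S_S3 : Prop :=
  Bd ZC (1 / 4) (9 / 100) ∧ Bd PC (1 / 4) (5 / 2) ∧ Bd psiC (1 / 4) (7 / 10) ∧ Bd zetC (1 / 4) (3 / 4) ∧
  Bd ZC (1 / 8) (1 / 50) ∧ Bd psiC (1 / 8) (1 / 6) ∧ Bd zetC (1 / 8) (1 / 6)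

/-- **S4.** Values of power series.

Proof. `Bd f r A` gives summability of `‖f_n‖ r^n` with sum `≤ A`, so `∑ f_n s^n` converges absolutely for `‖s‖ ≤ r`.
Product: Cauchy product of absolutely convergent series (`tsum_mul_tsum_eq_tsum_sum_antidiagonal_of_summable_norm`,
`PowerSeries.coeff_mul`).  Derivative: the power series has radius of convergence `≥ r`
(`FormalMultilinearSeries`, `hasFPowerSeriesOnBall`, or `hasDerivAt_tsum_of_isPreconnected` with the bound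
`n ‖f_n‖ ρ^(n-1)` for `ρ < r`); `coeff n (d⁄dX f) = (n+1) coeff (n+1) f`. -/
def S_S4 : Prop := ∀ (r : ℝ), 0 < r →
  (∀ (f : PowerSeries ℂ) (A : ℝ) (s : ℂ), Bd f r A → ‖s‖ ≤ r →
    Summable (fun n => ‖coeff n f * s ^ n‖) ∧ ‖evs f s‖ ≤ A) ∧
  (∀ (f g : PowerSeries ℂ) (A B : ℝ) (s : ℂ), Bd f r A → Bd g r B → ‖s‖ ≤ r →
    evs (f + g) s = evs f s + evs g s ∧ evs (f * g) s = evs f s * evs g s) ∧
  (∀ (x s : ℂ), evs (PowerSeries.C x) s = x ∧ evs PowerSeries.X s = s) ∧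
  (∀ f : PowerSeries ℂ, evs f 0 = constantCoeff f) ∧
  (∀ (f : PowerSeries ℂ) (A : ℝ) (s : ℂ), Bd f r A → ‖s‖ < r →
    HasDerivAt (evs f) (evs (d⁄dX ℂ f) s) s)

/-- **S5.** The coefficient as a circle integral.  (Uses `S_S4`.)

Proof. Integrate the uniformly convergent series `s^(-(t+1)) ∑ f_n s^n` term by term
(`circleIntegral.integral_sub_zpow_of_ne` etc., or use Cauchy's formula for the coefficients: `evs f` is analytic with power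
series `f` on the ball of radius `r > 1/8`, `HasFPowerSeriesOnBall` and `DiffContOnCl`). -/
def S_S5 : Prop := ∀ (f : PowerSeries ℂ) (r A : ℝ), 1 / 8 < r → Bd f r A → ∀ t : ℕ,
  coeff t f = (2 * Real.pi * I)⁻¹ * ∮ s in C(0, 1 / 8), s ^ (-((t : ℤ) + 1)) * evs f s

/-- **S6.** The parametrisation `z = κ w + ψ(s)` of a neighbourhood of `κ w`.
(Uses `S_S1`, `S_S3`, `S_S4`, `E9 : S_E9` (only `η((a + b I) w) = (a - b I) π / w`).)

Proof. Let `ψ(s) = evs psiC s` etc.  For `‖s‖ < 1/4`: `‖ψ(s)‖ ≤ 7/10 < 1 ≤ w/2`, and the distance of `κ w` to `Λ` is at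
least `w/2` (real part), so `z(s) = κ w + ψ(s) ∉ Λ`.  Put `x(s) = ℘(z(s))`, `f(s) = ℘'(z(s))`, `p(s) = evs PC s`.  By
`S_S1`, `S_S4`: `ψ' = p`, so `x' = f p`, `f' = (6 x^2 - 2) p` (`hasDerivAt_derivWeierstrassP`, `g₂ = 4`).  The functions
`x₁ = 1 + 2 Z(s)` and `f₁ = 4 s` satisfy the same equations: `x₁' = 2 · 2 s p = f₁ p`,
`(6 x₁^2 - 2) p = 4 (1 + 6 Z + 6 Z^2) p = 4 = f₁'`.  At `s = 0`: `x(0) = ℘(κ w) = ℘(w/2) = 1` (periodicity, `P1`),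
`f(0) = ℘'(κ w) = 0` (`2 κ w ∈ Λ`, `derivWeierstrassP_eq_zero`).  Uniqueness: fix `s`, `‖s‖ < 1/4`, and consider
`t ∈ [0,1] ↦ (x(ts), f(ts))` and `(x₁(ts), f₁(ts))`, two solutions of `Y' = s p(ts) (Y₂, 6 Y₁^2 - 2)` in `ℂ × ℂ` with the same
initial value; the right side is Lipschitz on a ball containing both (compact) curves:
`ODE_solution_unique_of_mem_Icc_right` (or a Gronwall argument).  So `x = x₁`, `f = f₁` for `‖s‖ < 1/4`.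
`ζ`: the derivative of `ζ(z(s)) - ζ~(s)` is `-℘(z(s)) p + (1 + 2 Z) p = 0` on the ball (convex), so it is equal to its value at
`0`: `ζ(κ w) = ζ(w/2 + (a + b I) w) = η(w)/2 + (a - b I) π/w = (a + 1/2 - b I) π / w`
(`etaW_eq_two_mul`, `zetaW_add`). -/
def S_S6 : Prop := ∀ (L : PeriodPair) (w : ℝ), LemP L w → ∀ (a b : ℤ) (s : ℂ), ‖s‖ ≤ 1 / 8 →
  kap a b * w + evs psiC s ∉ L.lattice ∧
  L.weierstrassP (kap a b * w + evs psiC s) = 1 + 2 * evs ZC s ∧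
  L.derivWeierstrassP (kap a b * w + evs psiC s) = 4 * s ∧
  zetaW L (kap a b * w + evs psiC s) = kap a (-b) * (Real.pi / w) + evs zetC s ∧
  ‖evs psiC s‖ ≤ 1 / 6 ∧ ‖evs zetC s‖ ≤ 1 / 6

/-- **S7.** Products of positive integers with bounded sum.

Proof. Induction on `h`.  Let `l_m` be the smallest of the `l_i` (`i : Fin (h+1)`); `(h+1) l_m ≤ ∑ l_i ≤ T`, so
`l_m ≤ T / (h+1)` and `l_m ∣ lcmUpto (T / (h+1))`.  The other `h` numbers have sum `≤ T`; apply the induction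
hypothesis to them (`Fin.succAbove m`, `Fin.prod_univ_succAbove`). -/
def S_S7 : Prop := ∀ (h T : ℕ) (l : Fin h → ℕ), (∀ i, 1 ≤ l i) → ∑ i, l i ≤ T →
  (∏ i, l i) ∣ ∏ i ∈ Finset.Icc 1 h, Nat.lcmUpto (T / i)

/-- **S8.** The common denominator.  (Uses `S_S7`.)

Proof. `cf a b k e t = ∑_{t'+t''=t} [X^t'](psiQ^a zetQ^b) · (integer)`.  `psiQ^a zetQ^b` is a product of `h = a + b ≤ 2 l`
series of the form `∑_{n≥1} c_n X^n / n` with integers `c_n` (constant coefficient `0`); by `PowerSeries.coeff_prod` its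
coefficient `t'` is a sum of terms `∏ c_{l_i} / l_i` with `l_i ≥ 1`, `∑ l_i = t' ≤ t < T`.  By `S_S7` `∏ l_i` divides
`∏_{i=1}^h lcmUpto(T/i)`, which divides `Den l T`. -/
def S_S8 : Prop := ∀ (l T a b k e t : ℕ), a + b ≤ 2 * l → t < T →
  ((cz l T a b k e t : ℤ) : ℚ) = (Den l T : ℚ) * cf a b k e t

/-- **S9.** Size of the common denominator.

Proof. `log Den = ∑_{h=1}^{2l} ψ(T/h)` (Chebyshev, `Nat.psi_eq_log_lcmUpto`, floor) `≤ ∑_h (log 4 · T/h + 2 √(T/h) log(T/h))`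
(`Chebyshev.psi_le` for the real number `T/h ≥ 1`, monotonicity in the floor) `≤ log 4 · T (1 + log(2l)) +
2 · 2l · √T log T` (`harmonic_le_one_add_log`). -/
def S_S9 : Prop := ∀ (l T : ℕ), 1 ≤ l → 2 * l ≤ T →
  0 < Den l T ∧ Real.log (Den l T) ≤
    Real.log 4 * T * (1 + Real.log (2 * l)) + 4 * l * (Real.sqrt T * Real.log T)

/-- **S10.** Bounds for the coefficients.  (Uses `S_S2`, `S_S3`.)

Proof. The image of `cf a b k e t` in `ℂ` is the coefficient `t` of `psiC^a zetC^b (1 + 2 ZC)^k (4 X)^e`, and with `r = 1/4`: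
`Bd` of this series is `(7/10)^a (3/4)^b (1 + 18/100)^k (4 · 1/4)^e ≤ 2^k`.  So `‖coeff t‖ (1/4)^t ≤ 2^k`.
Second part: with `r = 1/8`, `‖x‖ ≤ X₁` etc: `Bd ((C x + psiC)^i (C y + zetC)^j (1+2ZC)^k (4X)^e) (1/8)
((‖x‖ + 1/6)^i (‖y‖ + 1/6)^j (1.04)^k (1/2)^e)`.  The difference of the products for `(x, y)` and `(x', y')` is a telescoping
sum of `i + j` products with one factor `C (x - x')` or `C (y - y')` and the others of the form `C x + psiC`, `C x' + psiC`,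
`C y + zetC`, `C y' + zetC` (`geom_sum`/`Commute.mul_geom_sum`, or induction); each has `Bd ≤ ε R^(i+j) 2^k` if all of
`‖x‖ + 1/6, ..` are at most `R` and `1 ≤ R`. -/
def S_S10 : Prop :=
  (∀ a b k e t : ℕ, |(cf a b k e t : ℝ)| ≤ 2 ^ k * 4 ^ t) ∧
  (∀ (x y x' y' : ℂ) (R ε : ℝ) (t i j k e : ℕ), 1 ≤ R → e ≤ 1 → ‖x‖ + 1 / 6 ≤ R → ‖y‖ + 1 / 6 ≤ R →
    ‖x'‖ + 1 / 6 ≤ R → ‖y'‖ + 1 / 6 ≤ R → ‖x - x'‖ ≤ ε → ‖y - y'‖ ≤ ε →
    ‖ent x y t i j k e - ent x' y' t i j k e‖ ≤ (i + j : ℕ) * ε * R ^ (i + j) * 2 ^ k * 8 ^ t)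

end Pool.Agent.MPb60633
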