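import Pool.Agent.Lib.MP_b60633_nt.Defs

/-!
# MP_b60633_nt, Spec Z: the zero estimate (helper11)

Every `S_...` is a statement to be proved in its own file; the docstring contains the complete proof.
`Hf L P F` is the entire function `F(z, ζ, ℘, ℘') σ ^ P` (`F : R4 = MvPolynomial (Fin 4) ℂ`), `Box l n` the space of the
polynomials of degree `≤ l` in `X 0` and in `X 1`, `< n` in `X 2`, `≤ 1` in `X 3`; `Tr a b` the translation
`X 0 ↦ X 0 + a`, `X 1 ↦ X 1 + b`; `d0, d1` the derivations `∂/∂X 0`, `∂/∂X 1`.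
-/

set_option autoImplicit false

namespace Pool.Agent.MPb60633

open Complex Pool.Agent.Lib.Ribet4b482e Module

/-! ## Linear algebra -/

/-- **Z1.** Kernels of powers of a nilpotent operator.

Proof. Let `K j = ker (D ^ j)`, `a j = dim (K j)`.  `D` maps `K (j+2)` into `K (j+1)` and induces an injection
`K (j+2) / K (j+1) → K (j+1) / K j` (`x ∈ K (j+2)`, `D x ∈ K j` implies `x ∈ K (j+1)`), so
`a (j+2) - a (j+1) ≤ a (j+1) - a j`.  [E.g. rank-nullity for `D : K (j+2) → K (j+1)` composed with the quotient map to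
`K (j+1) / K j`: the kernel is `K (j+1)`.]  Let `d j = a (j+1) - a j` (antitone); `a M = ∑_{j<M} d j`,
`dim V = a N = ∑_{j<N} d j`; as `d` is antitone `M ∑_{j<N} d j ≤ N ∑_{j<M} d j` (`M ∑_{M≤j<N} d j ≤ M (N-M) d (M-1) ≤
(N-M) ∑_{j<M} d j` for `M ≥ 1`). -/
def S_Z1 : Prop := ∀ (V : Type) [AddCommGroup V] [Module ℂ V] [FiniteDimensional ℂ V]
  (D : V →ₗ[ℂ] V) (N M : ℕ), D ^ N = 0 → M ≤ N →
  M * finrank ℂ V ≤ N * finrank ℂ (LinearMap.ker (D ^ M))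

/-- **Z2.** The rank lemma.  (Uses `S_Z1`.)

Proof. `M = 0` is trivial; let `M ≥ 1`.  For an operator with `D ^ N = 0` on a space `W`, by `S_Z1` and rank-nullity
`M dim W ≤ N dim ker (D^M) = N dim (W / D^M W)`.  Let `R₁ = range (D₁^M)`, `Q = V / R₁`; `D₂` induces `D₂'` on `Q`
(commutes with `D₁`), `D₂'^N = 0`, so `N dim (Q / D₂'^M Q) ≥ M dim Q` and `N dim Q ≥ M dim V`.  With
`R = range (D₁^M) + range (D₂^M)`: `Q / D₂'^M Q = V / R`, so `N^2 dim (V / R) ≥ M^2 dim V`.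
Let `S` be the span of the `M^2` vectors `GG .. (u₀ + p) (v₀ + q)`.  Claim `S ⊔ R = ⊤`, so that `dim S ≥ dim (V / R)`.
Otherwise there is a functional `φ ≠ 0` vanishing on `S` and on `R` (`Submodule.exists_le_ker_of_lt_top` or
`exists_dual_map_eq_bot_of_lt_top`).  `φ (D₁^i D₂^j F₀) = 0` if `i ≥ M` or `j ≥ M` (`D₁ D₂ = D₂ D₁`).  So
`φ (GG .. u v) = ∑_{i,j<M} φ(D₁^i D₂^j F₀) u^i v^j / (i! j!)` is a polynomial in `u, v` of degree `< M` in each variable,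
vanishing at the grid `(u₀+p, v₀+q)`, `p, q < M`, so all its coefficients are `0` (fix `v = v₀ + q`: a polynomial in `u` of
degree `< M` with `M` zeros; then for each `i` a polynomial in `v`).  So `φ` vanishes on all `D₁^i D₂^j F₀`, i.e. on `V`:
contradiction. -/
def S_Z2 : Prop := ∀ (V : Type) [AddCommGroup V] [Module ℂ V] [FiniteDimensional ℂ V]
  (D₁ D₂ : V →ₗ[ℂ] V) (F₀ : V) (N M : ℕ) (u₀ v₀ : ℂ),
  D₁ * D₂ = D₂ * D₁ → D₁ ^ N = 0 → D₂ ^ N = 0 → M ≤ N →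
  Submodule.span ℂ (Set.range fun ij : ℕ × ℕ => (D₁ ^ ij.1 * D₂ ^ ij.2) F₀) = ⊤ →
  M ^ 2 * finrank ℂ V ≤ N ^ 2 * finrank ℂ (Submodule.span ℂ
    (Set.range fun pq : Fin M × Fin M => GG D₁ D₂ N F₀ (u₀ + (pq.1 : ℕ)) (v₀ + (pq.2 : ℕ))))

/-- **Z3.** Echelon basis.

Proof. Induction on `l = dim V`, for all sequences `c`.  `l = 0`: trivial.  Let `l = l' + 1`, and let `N₀` be the least `N`
with `c N ≠ 0` (exists, as `V ≠ 0`).  `V' = ker (c N₀)` has dimension `l'`, and the restrictions of the `c N` satisfy the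
hypothesis; let `b', n'` be given by induction for `V'`.  For `N ≤ N₀` `c N` vanishes on `V'`, so `n' j > N₀` for all `j`.
Choose `v₀` with `c N₀ v₀ ≠ 0`, and `b 0 = v₀`, `b (j+1) = b' j`, `n 0 = N₀`, `n (j+1) = n' j`.  It is a basis
(linearly independent: apply `c N₀`; the number is `dim V`). -/
def S_Z3 : Prop := ∀ (l : ℕ) (V : Type) [AddCommGroup V] [Module ℂ V] [FiniteDimensional ℂ V]
  (c : ℕ → (V →ₗ[ℂ] ℂ)), finrank ℂ V = l → (∀ v : V, v ≠ 0 → ∃ N, c N v ≠ 0) →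
  ∃ (b : Basis (Fin l) ℂ V) (nn : Fin l → ℕ), StrictMono nn ∧
    ∀ j, c (nn j) (b j) ≠ 0 ∧ ∀ N < nn j, c N (b j) = 0

/-! ## Wronskians -/

/-- **Z4.** Calculus of Wronskians of entire functions.

Proof. (1) products and sums of entire functions are entire.  (2) Leibniz: `iteratedDeriv_mul` (or
`iteratedDeriv_fun_mul`): the matrix of `g f_j` is `T · M` with `T i s = choose i s * g^{(i-s)}` lower triangular with
diagonal `g z`; `Matrix.det_mul`, `Matrix.det_of_lowerTriangular`.  (3) linear combinations: the matrix is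
`M · C` (`(M C) i j = ∑_k f_k^{(i)} C k j`).  (4) `iteratedDeriv_comp_add_const`. -/
def S_Z4 : Prop := ∀ (l : ℕ) (f : Fin l → ℂ → ℂ), (∀ j, Differentiable ℂ (f j)) →
  Differentiable ℂ (Wr f) ∧
  (∀ g : ℂ → ℂ, Differentiable ℂ g → ∀ z, Wr (fun j z => g z * f j z) z = g z ^ l * Wr f z) ∧
  (∀ (C : Matrix (Fin l) (Fin l) ℂ) (z : ℂ),
    Wr (fun j z => ∑ k, C k j * f k z) z = C.det * Wr f z) ∧
  (∀ (a z : ℂ), Wr (fun j z => f j (z + a)) z = Wr f (z + a))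

/-- **Z5.** The order of a Wronskian, I: it is not identically zero.

Proof. Near `z₀`: `f_j(z) = (z - z₀)^{n_j} g_j(z)`, `g_j` analytic, `g_j(z₀) ≠ 0`
(`AnalyticAt.analyticOrderAt_eq_natCast`).  Claim: for `z → z₀`, `z ≠ z₀`:
`(z - z₀)^(i - n_j) f_j^{(i)}(z) → n_j (n_j - 1) ⋯ (n_j - i + 1) g_j(z₀)` (integer exponent `i - n_j`): by Leibniz
`f_j^{(i)} = ∑_s choose(i,s) (n_j)_s (z - z₀)^{n_j - s} g_j^{(i-s)}` (near `z₀`, with `(n_j)_s = 0` for `s > n_j`), only `s = i` contributes to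
the limit.  [Or induction on `i` for the statement: `f^{(i)}(z) = (z-z₀)^(n-i) h_i(z)` on a punctured neighbourhood with `h_i`
analytic at `z₀`, `h_i(z₀) = (n)_i g(z₀)`, zpow exponents: `h_{i+1} = (n - i) h_i + (z - z₀) h_i'`.]
So `(z - z₀)^(∑_i i - ∑_j n_j) Wr f z` (multiply row `i` by `(z-z₀)^i`, column `j` by `(z-z₀)^(-n_j)`) tends to
`det ((n_j)_i) ∏ g_j(z₀)`; the first determinant is the Vandermonde determinant of the `n_j` as the descending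
Pochhammer polynomials are monic of degree `i`
(`Matrix.det_eval_matrixOfPolynomials_eq_det_vandermonde`, `Matrix.det_vandermonde_ne_zero_iff`).  So `Wr f z ≠ 0` for `z`
near `z₀`. -/
def S_Z5 : Prop := ∀ (l : ℕ) (f : Fin l → ℂ → ℂ) (z₀ : ℂ) (nn : Fin l → ℕ),
  (∀ j, Differentiable ℂ (f j)) → StrictMono nn → (∀ j, analyticOrderAt (f j) z₀ = nn j) →
  ∃ z, Wr f z ≠ 0

/-- **Z6.** The order of a Wronskian, II: lower bound.

Proof. Let `S = {j | T ≤ analyticOrderAt (f j) z₀}`.  `f_j^{(i)}` has order `≥ T - i ≥ T + 1 - l` at `z₀` for `j ∈ S`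
(natural subtraction; the order of the derivative drops by at most one).  Every term of the expansion of the
determinant is a product of `l` entire functions of which `|S|` have order `≥ T + 1 - l`, so it has order
`≥ |S| (T + 1 - l)` (`analyticOrderAt_mul`), and so has the sum. -/
def S_Z6 : Prop := ∀ (l : ℕ) (f : Fin l → ℂ → ℂ) (z₀ : ℂ) (T : ℕ) (S : Finset (Fin l)),
  (∀ j, Differentiable ℂ (f j)) → (∀ j ∈ S, (T : ℕ∞) ≤ analyticOrderAt (f j) z₀) →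
  ((S.card * (T + 1 - l) : ℕ) : ℕ∞) ≤ analyticOrderAt (Wr f) z₀

/-! ## Quasi-periodic entire functions -/

/-- **Z7.** A quasi-periodic entire function cannot vanish too much.

Proof. Suppose `Q < V`; `V` is an order of vanishing at `z₀`; by the functional equation (`σ(z₀) ≠ 0`, `σ(z₀ + l) ≠ 0`) `H`
vanishes to order `≥ V` at all `z₀ + l`, `l ∈ Λ`.  `σ(z - z₀)` has simple zeros exactly at `z₀ + Λ`
(`sigmaW_eq_zero_iff`; the derivative of `σ` at `l ∈ Λ` is not `0`: at `0` it is `1` (`hasDerivAt_sigmaW_zero`), and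
`exists_sigmaW_add`).  So there is an entire function `h` with `H(z) = h(z) σ(z - z₀)^V` (removable singularities, e.g.
apply `V` times: an entire function vanishing on `z₀ + Λ` is divisible by `σ(z - z₀)`; the quotient has order `V - 1` at
these points).  Put `B(z) = ‖h(z)‖ exp(V Gs(z - z₀) - Q Gs(z))`, a continuous function.  For `z ∉ Λ`, `z - z₀ ∉ Λ`:
`B(z) = (‖H(z)‖ / ‖σ z‖^Q) (‖σ z‖ e^{-Gs z})^Q / (‖σ(z-z₀)‖ e^{-Gs(z-z₀)})^V` is invariant under `z ↦ z + l` by `S_E9` (third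
hypothesis below) and the functional equation; by continuity and density `B(z + l) = B(z)` for all `z`.  So `B` is
bounded by a constant `c` (compactness of the period cell), `‖h(z)‖ ≤ c exp(Q Gs z - V Gs(z - z₀)) → 0` for `‖z‖ → ∞`
as `Q < V`.  So `h` is a bounded entire function with limit `0`: `h = 0` (Liouville), `H = 0`. -/
def S_Z7 : Prop := ∀ (L : PeriodPair) (w : ℝ), LemP L w →
  (∀ l ∈ L.lattice, ∃ C : ℂ, C ≠ 0 ∧ ∀ z : ℂ,
    sigmaW L (z + l) = C * Complex.exp (etaW L l * z) * sigmaW L z ∧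
    ‖C * Complex.exp (etaW L l * z)‖ = Real.exp (Gs w (z + l) - Gs w z)) →
  ∀ (H : ℂ → ℂ) (Q V : ℕ) (z₀ : ℂ), Differentiable ℂ H → z₀ ∉ L.lattice →
  (∀ l ∈ L.lattice, ∀ z, H (z + l) * sigmaW L z ^ Q = H z * sigmaW L (z + l) ^ Q) →
  (V : ℕ∞) ≤ analyticOrderAt H z₀ → Q < V → ∀ z, H z = 0

/-! ## The algebraic set-up -/

/-- **Z8.** Taylor's formula and degrees.

Proof. (1) `Box` is stable under `d0`, `d1`, `Tr a b` (look at monomials:
`pderiv`, and `(X 0 + a)^c₀ (X 1 + b)^c₁ X 2^c₂ X 3^c₃`), `d0` and `d1` commute.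
(2) On `Box l n` a product of more than `2 l` operators, each a linear combination of `d0` and `d1`, is zero (total degree
in `X 0, X 1` at most `2 l`, each operator decreases it): `(α d0 + β d1)^(2l+1) F = 0`.
(3) Taylor: for a monomial, `(X 0 + a)^i (X 1 + b)^j = ∑_{s,t} (a^s/s!) (b^t/t!) ∂_0^s ∂_1^t (X 0^i X 1^j)`; with
`D₁ = α d0 + β d1`, `D₂ = I (α d0 - β d1)`, `a = u α + v I α`, `b = u β - v I β`: `u D₁ + v D₂ = a d0 + b d1` and
`∑_{i,j} u^i v^j/(i! j!) D₁^i D₂^j = ∑_m (u D₁ + v D₂)^m / m! = ∑_m (a d0 + b d1)^m/m! = ∑_{s,t} a^s b^t/(s! t!) d0^s d1^t`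
on `Box` (all sums finite by (2); in `GG` the range `i, j < 2l+1` contains all nonzero terms). -/
def S_Z8 : Prop := ∀ (l n : ℕ),
  (∀ F ∈ Box l n, d0 F ∈ Box l n ∧ d1 F ∈ Box l n) ∧
  (d0 * d1 = d1 * d0) ∧
  (∀ (α β : ℂ), ∀ F ∈ Box l n, ((α • d0 + β • d1) ^ (2 * l + 1)) F = 0) ∧
  (∀ (α β u v : ℂ), ∀ F ∈ Box l n,
    Tr (u * α + v * (I * α)) (u * β - v * (I * β)) F =
      GG (α • d0 + β • d1) (I • (α • d0 - β • d1)) (2 * l + 1) F u v)

/-- **Z9.** The space of translates.  (Uses `S_Z8`.)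

Proof. `E` is the span of the `d0^i d1^j F`, `i, j ∈ ℕ`.  It is contained in `Box l n` (finite-dimensional), stable
under `d0`, `d1`, and only `i, j ≤ l` matter (`d0^(l+1) = 0` on `Box`), so `dim E ≤ (l+1)^2`.  By Taylor's formula
`Tr a b` maps `E` to `E` (`S_Z8` with `α = β = 1`: `u + v I = a`, `u - v I = b`; or directly).  `Tr a b - 1` is nilpotent on `E`
(`(Tr a b - 1)` decreases the total degree in `X 0, X 1`; it is `∑_{m≥1} (a d0 + b d1)^m/m!`), so the determinant of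
`Tr a b` on `E` is `1` (e.g. the characteristic polynomial of a nilpotent endomorphism `ν` is `X^dim`,
`det (1 + ν) = ± charpoly(ν)(-1)`; or the map `a b ↦ det` argument; or a basis adapted to the filtration). -/
def S_Z9 : Prop := ∀ (l n : ℕ) (F : R4), F ∈ Box l n →
  ∃ (E : Submodule ℂ R4), F ∈ E ∧ E ≤ Box l n ∧ FiniteDimensional ℂ E ∧ finrank ℂ E ≤ (l + 1) ^ 2 ∧
    (∀ B ∈ E, d0 B ∈ E ∧ d1 B ∈ E) ∧
    (∀ B ∈ E, B ∈ Submodule.span ℂ (Set.range fun ij : ℕ × ℕ => (d0 ^ ij.1 * d1 ^ ij.2) F)) ∧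
    (∀ a b : ℂ, ∃ h : ∀ B ∈ E, Tr a b B ∈ E, LinearMap.det ((Tr a b).restrict h) = 1)

/-- **Z10.** The dimension of the span of the translates at the grid points.  (Uses `S_Z2`, `S_Z8`.)

Proof. Let `E` be stable under `d0, d1`, `E ≤ Box l n`, spanned by the `d0^i d1^j F`.  Let `D₁ = α d0 + β d1`,
`D₂ = I (α d0 - β d1)` on `E`: they commute and `D₁^N = D₂^N = 0`, `N = 2l+1` (`S_Z8` (2) with `(α, β)` and
`(Iα, -Iβ)`).  Let `F₀ = Tr (-w/2) (-h/2) F`.  As `F₀ = exp(-(w/2) d0 - (h/2) d1) F` and `F = exp(..) F₀`, and `d0, d1` are linear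
combinations of `D₁, D₂` (`α, β ≠ 0`), the span of the `D₁^i D₂^j F₀` is `E`.  For `κ = u + v I` (`u = a₀ + p + 1/2`,
`v = b₀ + q`): `Tr (κ α - w/2) (κ̄ β - h/2) F = Tr (κ α) (κ̄ β) F₀ = GG D₁ D₂ N F₀ u v`, as `κ α = u α + v I α`,
`κ̄ β = u β - v I β`.  So the rank lemma `S_Z2` (for the type `E`) gives the claim. -/
def S_Z10 : Prop := ∀ (l n M : ℕ) (F : R4) (E : Submodule ℂ R4) (α β w h : ℂ) (a₀ b₀ : ℤ),
  E ≤ Box l n → F ∈ E → FiniteDimensional ℂ E → (∀ B ∈ E, d0 B ∈ E ∧ d1 B ∈ E) →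
  (∀ B ∈ E, B ∈ Submodule.span ℂ (Set.range fun ij : ℕ × ℕ => (d0 ^ ij.1 * d1 ^ ij.2) F)) →
  α ≠ 0 → β ≠ 0 → M ≤ 2 * l + 1 →
  M ^ 2 * finrank ℂ E ≤ (2 * l + 1) ^ 2 * finrank ℂ (Submodule.span ℂ
    (Set.range fun pq : Fin M × Fin M =>
      Tr (kap (a₀ + (pq.1 : ℕ)) (b₀ + (pq.2 : ℕ)) * α - w / 2)
        (kap (a₀ + (pq.1 : ℕ)) (-(b₀ + (pq.2 : ℕ))) * β - h / 2) F))

/-! ## The functions -/

/-- **Z11.** Quasi-periodicity of `Hf`.  (`E10`, `E12` are `S_E10`, `S_E12` of Spec E.)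

Proof. By linearity in `F` (`Hf` is a sum over the support, so additive in `F`) it is enough to treat monomials
`X^c`, `c ∈ Box`.  `Tr l η` of the monomial is `(X 0 + l)^c₀ (X 1 + η)^c₁ X 2^c₂ X 3^c₃`.  With `E = C exp(η z)`:
`gfun L P c (z + l) = (z+l)^c₀ (E (A1 + η σ))^c₁ (E^2 A2)^c₂ (E^3 A3)^c₃ (E σ)^(P - c₁ - 2c₂ - 3c₃) =
E^P (z+l)^c₀ (A1 + η σ)^c₁ A2^c₂ A3^c₃ σ^(..)` and expand `(A1 + η σ)^c₁ σ^(P-c₁-..) = ∑_s choose(c₁,s) η^(c₁-s) A1^s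
σ^(P - s - ..)`, `(z+l)^c₀` by the binomial theorem.  `c₁ + 2 c₂ + 3 c₃ ≤ l + 2 (n-1) + 3 = P`.  `Hf L P F` is entire by
`S_E12`. -/
def S_Z11 : Prop := ∀ (L : PeriodPair) (l n : ℕ), ∀ F ∈ Box l n,
  ∀ (lam h C : ℂ), (∀ z, sigmaW L (z + lam) = C * Complex.exp (h * z) * sigmaW L z) → ∀ z,
    Hf L (2 * n + 1 + l) F (z + lam) =
      (C * Complex.exp (h * z)) ^ (2 * n + 1 + l) * Hf L (2 * n + 1 + l) (Tr lam h F) z

/-- **Z12.** `z, ζ, ℘, ℘'` are sufficiently independent.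

Proof. Suppose `Hf L P F = 0`, `P = 2n+1+l`.  By `S_E12` for `z ∉ Λ`: `F(z, ζ z, ℘ z, ℘' z) = 0`.  Fix `z ∉ Λ`.  For
`λ = (p + q I) w`, `η(λ) = (p - q I) π/w`, replace `z` by `z + λ`: `F(z + λ, ζ z + η(λ), ℘ z, ℘' z) = 0` for all `p, q ∈ ℤ`.
It is a polynomial in `(p, q)`, so it vanishes for all complex `p, q`; the map `(p, q) ↦ ((p + q I) w, (p - q I) π/w)` is a
bijection of `ℂ^2`, so `F(x, y, ℘ z, ℘' z) = 0` for all complex `x, y`; i.e. all coefficients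
`A_ij(z) = ∑_{k, e} F_ijke ℘(z)^k ℘'(z)^e` are `0`.  Replace `z` by `-z` (`℘` even, `℘'` odd): `∑_k F_ijk0 ℘^k = 0` and
`℘' ∑_k F_ijk1 ℘^k = 0`.  `℘` takes every value `a` off `Λ` (`exists_weierstrassP_eq`), and `℘' ≠ 0` when `a^3 ≠ a`
(`derivWeierstrassP_sq`), so the polynomials `∑_k F_ijke X^k` have infinitely many zeros: all coefficients are `0`. -/
def S_Z12 : Prop := ∀ (L : PeriodPair) (w : ℝ), LemP L w →
  (∀ a b : ℤ, etaW L (((a : ℂ) + b * I) * w) = ((a : ℂ) - b * I) * (Real.pi / w)) →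
  (∀ P i j k e : ℕ, Differentiable ℂ (gfun L P i j k e) ∧ (j + 2 * k + 3 * e ≤ P →
    ∀ z, z ∉ L.lattice → gfun L P i j k e z =
      z ^ i * zetaW L z ^ j * L.weierstrassP z ^ k * L.derivWeierstrassP z ^ e * sigmaW L z ^ P)) →
  ∀ (l n : ℕ), ∀ F ∈ Box l n, (∀ z, Hf L (2 * n + 1 + l) F z = 0) → F = 0

/-- **Z13.** Vanishing of the rows means vanishing at `w/2`.  (`S6` of Spec S: parametrisation; `S_S4`, `S_S3`.)

Proof. Let `B = Tr (κ α - w/2) (κ̄ β - π/(2w)) F`, `κ = kap a b`, `P = 2n+1+l`.  For `‖s‖ ≤ 1/8` put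
`z(s) = w/2 + ψ(s)` (`S_S6` with `a = b = 0`, `kap 0 0 = 1/2`): `z(s) - w/2 + κ α = κ α + ψ(s)`,
`ζ(z(s)) - π/(2w) + κ̄ β = κ̄ β + ζ~(s)` (`kap 0 0 * (π/w) = π/(2w)`).  So
`Hf L P B (z(s)) = σ(z(s))^P F(κ α + ψ(s), κ̄ β + ζ~(s), 1 + 2 Z(s), 4 s) = σ(z(s))^P evs g s` where `g` is the power series
`∑_c F_c (C(κα) + psiC)^c₀ (C(κ̄β) + zetC)^c₁ (1 + 2 ZC)^c₂ (4 X)^c₃` (`S_S4`), whose coefficients `t < T` are
`∑_c F_c ent (κα) (κ̄β) t c = 0`.  So `evs g s = O(s^T)`, `Hf L P B (z(s)) = O(s^T)` for `s → 0`.  `s ↦ z(s)` is analytic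
with derivative `1` at `0` (`coeff 0 PC = 1`), so `s = O(z(s) - w/2)`, and with the local inverse (or
`analyticOrderAt` of a composition with a map of nonzero derivative; or `s = ℘'(z(s))/4` and `℘'` analytic at `w/2`)
`Hf L P B (z) = O((z - w/2)^T)` for `z → w/2`: the order at `w/2` is at least `T`. -/
def S_Z13 : Prop := ∀ (L : PeriodPair) (w : ℝ), LemP L w →
  (∀ s : ℂ, ‖s‖ ≤ 1 / 8 →
    (w : ℂ) / 2 + evs psiC s ∉ L.lattice ∧
    L.weierstrassP ((w : ℂ) / 2 + evs psiC s) = 1 + 2 * evs ZC s ∧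
    L.derivWeierstrassP ((w : ℂ) / 2 + evs psiC s) = 4 * s ∧
    zetaW L ((w : ℂ) / 2 + evs psiC s) = (Real.pi / w) / 2 + evs zetC s) →
  (∀ P i j k e : ℕ, Differentiable ℂ (gfun L P i j k e) ∧ (j + 2 * k + 3 * e ≤ P →
    ∀ z, z ∉ L.lattice → gfun L P i j k e z =
      z ^ i * zetaW L z ^ j * L.weierstrassP z ^ k * L.derivWeierstrassP z ^ e * sigmaW L z ^ P)) →
  ∀ (l n T : ℕ) (α β : ℂ) (a b : ℤ), ∀ F ∈ Box l n,
  (∀ t < T, ∑ c ∈ F.support, F.coeff c *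
    ent (kap a b * α) (kap a (-b) * β) t (c 0) (c 1) (c 2) (c 3) = 0) →
  (T : ℕ∞) ≤ analyticOrderAt (Hf L (2 * n + 1 + l)
    (Tr (kap a b * α - w / 2) (kap a (-b) * β - (Real.pi / w : ℝ) / 2) F)) ((w : ℂ) / 2)

/-- **Z14.** The zero estimate.
(Uses `S_Z3`, `S_Z4`, `S_Z5`, `S_Z6`, `S_Z7`, `S_Z9`, `S_Z10`, `S_Z11`, `S_Z12`, `S_Z13`, `S_E9`, `S_E12`, `S_S6`.)

Proof. Suppose `F ≠ 0`.  Take `E` from `S_Z9`, `ℓ = dim E ≥ 1`, `ℓ ≤ (l+1)^2 ≤ T`, `P = 2n+1+l`, `z₀ = w/2`.  The linear maps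
`c N : E → ℂ`, `c N B = iteratedDeriv N (Hf L P B) z₀`, satisfy the hypothesis of `S_Z3`: if all are `0` then `Hf L P B = 0`
(entire function), `B = 0` by `S_Z12`.  Let `b, nn` be the echelon basis; `analyticOrderAt (Hf L P (b j)) z₀ = nn j`
(`natCast_le_analyticOrderAt_iff_iteratedDeriv_eq_zero`).  `W = Wr (fun j => Hf L P (b j))` is entire, not identically
zero (`S_Z5`).  Functional equation: for `λ ∈ Λ`, `C` as in `S_E9`, `η = etaW L λ`: by `S_Z11`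
`Hf L P (b j) (z+λ) = (C e^{ηz})^P Hf L P (Tr λ η (b j)) z = (C e^{ηz})^P ∑_k M_kj Hf L P (b k) z`, `M` the matrix of
`Tr λ η` on `E`, `det M = 1` (`S_Z9`); so by `S_Z4` `W(z + λ) = (C e^{ηz})^{Pℓ} W(z)`, and `σ(z+λ) = C e^{ηz} σ z` gives
`W(z+λ) σ(z)^{Pℓ} = W(z) σ(z+λ)^{Pℓ}`.
Let `S = {j | T ≤ nn j}`, `ρ` the dimension of the span of the `Tr (κα - w/2) (κ̄β - η(w)/2) F` over the grid.  All elements
`B` of this span have `c N B = 0` for `N < T` (`S_Z13`), and a `B ∈ E` with this property is a linear combination of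
the `b j`, `j ∈ S` (the least `j` with nonzero coordinate has `nn j ≥ T`), so `ρ ≤ |S|`.  By `S_Z6` the order of `W` at `z₀`
is at least `|S| (T + 1 - ℓ) ≥ ρ (T + 1 - ℓ)`; by `S_Z7` (`W ≠ 0`) this is `≤ P ℓ`.  By `S_Z10` `M^2 ℓ ≤ (2l+1)^2 ρ`.  So
`M^2 ℓ (T+1-ℓ) ≤ (2l+1)^2 ρ (T+1-ℓ) ≤ (2l+1)^2 P ℓ`, `M^2 (T + 1 - (l+1)^2) ≤ M^2 (T+1-ℓ) ≤ (2l+1)^2 P`: contradiction
to the hypothesis. -/
def S_Z14 : Prop := ∀ (L : PeriodPair) (w : ℝ), LemP L w → ∀ (l n M T : ℕ) (α β : ℂ) (a₀ b₀ : ℤ),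
  α ≠ 0 → β ≠ 0 → M ≤ 2 * l + 1 → (l + 1) ^ 2 ≤ T →
  (2 * l + 1) ^ 2 * (2 * n + 1 + l) < M ^ 2 * (T + 1 - (l + 1) ^ 2) →
  ∀ F ∈ Box l n, (∀ p < M, ∀ q < M, ∀ t < T, ∑ c ∈ F.support, F.coeff c *
    ent (kap (a₀ + (p : ℕ)) (b₀ + (q : ℕ)) * α) (kap (a₀ + (p : ℕ)) (-(b₀ + (q : ℕ))) * β) t
      (c 0) (c 1) (c 2) (c 3) = 0) → F = 0

end Pool.Agent.MPb60633
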