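import Pool.Agent.Lib.MP_b60633_nt.SpecE
import Pool.Agent.Lib.MP_b60633_nt.SpecS
import Pool.Agent.Lib.MP_b60633_nt.SpecZ

/-!
# MP_b60633_nt, Spec D: the interpolation determinant; arithmetic; algebraic approximation (helper11)

Every `S_...` is a statement to be proved in its own file; the docstring contains the complete proof.
-/

set_option autoImplicit false

namespace Pool.Agent.MPb60633

open Complex Pool.Agent.Lib.Ribet4b482e Module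

/-! ## D. Upper bound of the determinant -/

/-- **D1.** A determinant estimate.

Proof. Put `U = card ι`.  The row `r` of `A` is `∑_{s<U} x r s • y s + e r`, a sum of `U + 1` vectors indexed by
`f ∈ Fin (U+1)` (`f = U` means `e r`).  Expand the determinant by multilinearity in the rows
(`MultilinearMap.map_sum` for `Matrix.detRowAlternating`): `det A = ∑_{f : ι → Fin (U+1)} det (row r is v r (f r))`.
If `f r = f r' < U` for some `r ≠ r'` then two rows are proportional and the term is `0`.  Otherwise the term is at most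
`U! ∏_r (K e^{-f r}) = U! K^U e^{-∑ f r}` (expansion over permutations, each entry of the row `r` is at most
`K e^{-f r}`), and `∑ f r ≥ 0 + 1 + ⋯ + (U-1) = U(U-1)/2`: `f` is injective on `{r | f r < U}`; if this set has `k`
elements the sum is at least `k(k-1)/2 + (U-k) U`, which is `≥ U(U-1)/2`.  There are `(U+1)^U` maps `f`. -/
def S_D1 : Prop := ∀ (ι : Type) [Fintype ι] [DecidableEq ι] (A e : ι → ι → ℂ) (x : ι → ℕ → ℂ)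
  (y : ℕ → ι → ℂ) (K : ℝ), 0 ≤ K →
  (∀ r c, A r c = ∑ s ∈ Finset.range (Fintype.card ι), x r s * y s c + e r c) →
  (∀ r c, ∀ s < Fintype.card ι, ‖x r s * y s c‖ ≤ K * Real.exp (-(s : ℝ))) →
  (∀ r c, ‖e r c‖ ≤ K * Real.exp (-(Fintype.card ι : ℝ))) →
  ‖Matrix.det (Matrix.of A)‖ ≤ ((Fintype.card ι : ℝ) + 1) ^ Fintype.card ι *
    (Fintype.card ι).factorial * K ^ Fintype.card ι *
    Real.exp (-((Fintype.card ι : ℝ) * ((Fintype.card ι : ℝ) - 1) / 2))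

/-- **D2.** The true rows.  (Uses `S_S2`, `S_S3`, `S_S4`, `S_S5`, `S_S6`, `S_E9`, `S_E12`.)

Proof. `ent x y t i j k e` (`x = κ w`, `y = κ̄ π/w`) is the coefficient `t` of a power series `f` with `Bd f (1/4) A` for some
`A` (`S_S2`, `S_S3`), so `S_S5` writes it as a circle integral of `s^(-(t+1)) evs f s`.  By `S_S4`, `S_S6` on the circle
`‖s‖ = 1/8`, with `z = κ w + ψ(s) ∉ Λ`: `evs f s = z^i ζ(z)^j ℘(z)^k ℘'(z)^e = gfun z / σ(z)^P` (`S_E12`), and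
`gfun z = ∑_m yco m z^m` (Taylor series of an entire function, `Complex.hasSum_taylorSeries_of_entire`), uniformly for
`‖z‖ ≤ ρ`.  Integrate term by term: `hasSum_integral_of_summable_integral_norm`/`intervalIntegral.hasSum_integral_of_dominated_convergence`
(domination: `‖yco m‖ ρ^m` is summable; `σ(z(s))` is continuous and nonzero on the circle). -/
def S_D2 : Prop := ∀ (L : PeriodPair) (w : ℝ), LemP L w → ∀ (a b : ℤ) (t P i j k e : ℕ),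
  j + 2 * k + 3 * e ≤ P →
  HasSum (fun m => xco L w a b t P m * yco L P i j k e m)
    (ent (kap a b * w) (kap a (-b) * (Real.pi / w : ℝ)) t i j k e)

/-- **D3.** Bounds for the terms.  (Uses `S_D2`, `S_E12`, `S_E13`, `S_S6`.)

Proof. `‖xco m‖ ≤ 8^t e^{6P} ρ^m`: on the circle `‖s^(-(t+1))‖ = 8^(t+1)`, `‖z‖ ≤ ‖κ‖ w + 1/6 ≤ ρ`, `‖σ z‖ ≥ e^{-6}`
(`S_E13`), and `circleIntegral.norm_two_pi_i_inv_smul_integral_le_of_norm_le_const` (factor `1/8`).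
`‖yco m‖ ≤ R^(-m) (1+R)^(2l) exp(P (600 + π R²/(2w²)))` with `R = e ρ` (Cauchy,
`Complex.norm_iteratedDeriv_le_of_forall_mem_sphere_norm_le`, and the bound of `S_E12`; `i + j ≤ 2 l`).  The product is at
most `KK · e^{-m}` (`8^t ≤ 8^T`).  The tail: `∑_{m ≥ U} KK e^{-m} = KK e^{-U}/(1 - e^{-1}) ≤ 2 KK e^{-U}`. -/
def S_D3 : Prop := ∀ (L : PeriodPair) (w : ℝ), LemP L w → ∀ (a b : ℤ) (t T P l i j k e : ℕ) (ρ : ℝ),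
  j + 2 * k + 3 * e ≤ P → i ≤ l → j ≤ l → t ≤ T → ‖kap a b‖ * w + 1 / 6 ≤ ρ →
  (∀ m, ‖xco L w a b t P m * yco L P i j k e m‖ ≤ KK w l P T ρ * Real.exp (-(m : ℝ))) ∧
  (∀ U : ℕ, ‖ent (kap a b * w) (kap a (-b) * (Real.pi / w : ℝ)) t i j k e -
    ∑ m ∈ Finset.range U, xco L w a b t P m * yco L P i j k e m‖ ≤
      2 * KK w l P T ρ * Real.exp (-(U : ℝ)))

/-- **D4.** The upper bound.  (Uses `S_D1`, `S_D3`, `S_S10`.)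

Proof. Let `U = card (Col l n)`, `P = 2n+1+l`, `K = KK w l P T ρ`.  For a column `c = (i, j, k, e)`:
`j + 2k + 3e ≤ l + 2(n-1) + 3 = P`.  For the row `(a, b, t)`: `entC α β a b t c = ∑_{m<U} xco m · yco m + e₁ + e₂`,
`‖e₁‖ ≤ 2 K e^{-U}` (`S_D3`), `e₂ = entC α β - entC w (π/w)`, by `S_S10` with `R = 2 ρ`:
`‖κ‖ ≤ ρ/2` (as `w ≥ 2`), `‖κ α‖ + 1/6 ≤ ‖κ‖ w + ‖κ‖ + 1/6 ≤ 2ρ`, `‖κ̄ β‖ + 1/6 ≤ (ρ/2)(π/2 + 1) + 1/6 ≤ 2ρ`,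
`‖κ (α - w)‖ ≤ ρ ε / 2`, so `‖e₂‖ ≤ 2l (ρ ε/2) (2ρ)^(2l) 2^n 8^T ≤ K e^{-U}` (`hε`).  The same for `(a, -b, t)`
(`‖kap a (-b)‖ = ‖kap a b‖`), with other `xco` but the same `yco`.  The rows `entR` are combinations of these two rows with
coefficients of absolute value `1/2`; so they are of the form `∑_{m<U} x' m · yco m + e'` with `‖x' m yco m‖ ≤ K e^{-m}`,
`‖e'‖ ≤ 3 K e^{-U}`.  Apply `S_D1` with `3 K`. -/
def S_D4 : Prop := ∀ (L : PeriodPair) (w : ℝ), LemP L w → ∀ (l n T : ℕ) (ρ ε : ℝ) (α β : ℂ)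
  (r : Col l n → ℤ × ℤ × ℕ × Fin 2),
  1 ≤ n → 1 ≤ ρ → 0 ≤ ε → ε ≤ 1 →
  (∀ c, ‖kap (r c).1 (r c).2.1‖ * w + 1 / 6 ≤ ρ ∧ (r c).2.2.1 ≤ T) →
  ‖α - w‖ ≤ ε → ‖β - (Real.pi / w : ℝ)‖ ≤ ε →
  ε * l * ρ * (2 * ρ) ^ (2 * l) * 2 ^ n * 8 ^ T ≤
    KK w l (2 * n + 1 + l) T ρ * Real.exp (-(Fintype.card (Col l n) : ℝ)) →
  ‖Matrix.det (Matrix.of fun c' c : Col l n =>
      entR α β (r c').1 (r c').2.1 (r c').2.2.1 (r c').2.2.2 c)‖ ≤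
    ((Fintype.card (Col l n) : ℝ) + 1) ^ Fintype.card (Col l n) *
    (Fintype.card (Col l n)).factorial * (3 * KK w l (2 * n + 1 + l) T ρ) ^ Fintype.card (Col l n) *
    Real.exp (-((Fintype.card (Col l n) : ℝ) * ((Fintype.card (Col l n) : ℝ) - 1) / 2))

/-! ## A. Arithmetic -/

/-- **A1.** The integer polynomials.  (Uses `S_S8`.)

Proof. Binomial theorem in `ent`: `ent x y t i j k e = ∑_{a'≤i, b'≤j} choose(i,a') choose(j,b') x^(i-a') y^(j-b')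
cf a' b' k e t` (the image of `cf` in `ℂ` is the coefficient of `psiC^a' zetC^b' (1+2ZC)^k (4X)^e`).  With `x = κ α`,
`y = κ̄ β`, `β = p^4/(8 q^4 α^3)`, multiplied by `2^(i+j) (8q^4)^j α^(3j) Den`:
`2^(i+j) (8q^4)^j α^(3j) (κα)^(i-a') (κ̄β)^(j-b') = (2κ)^(i-a') (2κ̄)^(j-b') 2^a' (16 q^4)^b' p^(4(j-b')) α^(i-a'+3b')`,
and `cz = Den · cf` (`S_S8`, `a' + b' ≤ 2l`, `t < T`).  `entR` with `part = 0` is half the sum over `κ, κ̄`: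
`((2κ)^u (2κ̄)^v + (2κ̄)^u (2κ)^v)/2 = re ((2κ)^u (2κ̄)^v) = gint 0`; `part = 1`: the difference over `2 i` is
the imaginary part `gint 1`. -/
def S_A1 : Prop := ∀ (l n T : ℕ) (p q : ℤ) (α : ℂ) (a b : ℤ) (t : ℕ) (part : Fin 2) (c : Col l n),
  q ≠ 0 → α ≠ 0 → t < T →
  Polynomial.aeval α (Epol T p q a b t part c) =
    2 ^ ((c.1 : ℕ) + c.2.1) * (8 * (q : ℂ) ^ 4) ^ (c.2.1 : ℕ) * α ^ (3 * (c.2.1 : ℕ)) * (Den l T : ℂ) *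
      entR α ((p : ℂ) ^ 4 / (8 * (q : ℂ) ^ 4 * α ^ 3)) a b t part c

/-- **A2.** Length and degree of the entries.  (Uses `S_S8`, `S_S10`.)

Proof. `natDegree ≤ i + 3 j`: each term has exponent `i - a' + 3 b' ≤ i + 3j`.  `len` is subadditive, `len (C m X^d) = |m|`
(`len` may be computed with any range containing the support).  `|gint| ≤ S^(u+v)` if `‖2 κ‖ ≤ S` (`|re|, |im| ≤ ` norm,
`‖2κ̄‖ = ‖2κ‖`), `|p|^4 ≤ 256 q^4`, `|cz| = Den |cf| ≤ Den 2^k 4^t`.  So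
`len ≤ ∑ choose choose S^(i-a') 2^a' (256 S q^4)^(j-b') (16 q^4)^b' Den 2^k 4^t = (S+2)^i ((256 S + 16) q^4)^j Den 2^k 4^t`
and `(S+2)^i (256 S + 16)^j ≤ (272 (S+2))^(2l)`. -/
def S_A2 : Prop := ∀ (l n T : ℕ) (p q : ℤ) (a b : ℤ) (t : ℕ) (part : Fin 2) (c : Col l n) (S : ℝ),
  1 ≤ q → |(p : ℝ)| ≤ 4 * q → t < T → 1 ≤ S → ‖2 * kap a b‖ ≤ S →
  (Epol T p q a b t part c).natDegree ≤ (c.1 : ℕ) + 3 * (c.2.1 : ℕ) ∧
  len (Epol T p q a b t part c) ≤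
    (272 * (S + 2)) ^ (2 * l) * (q : ℝ) ^ (4 * (c.2.1 : ℕ)) * Den l T * 2 ^ n * 4 ^ T

/-- **A3.** Length and degree of a determinant.

Proof. `len (f g) ≤ len f · len g`, `len (f + g) ≤ len f + len g`, `len (-f) = len f`; expansion over the permutations.
(`len f = ∑_{i < m} |coeff i|` for every `m > natDegree f`; or `len f = f.sum fun _ a => |a|`.) -/
def S_A3 : Prop := ∀ (ι : Type) [Fintype ι] [DecidableEq ι] (A : Matrix ι ι (Polynomial ℤ)) (B : ι → ℝ)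
  (dg : ι → ℕ), (∀ r c, len (A r c) ≤ B c) → (∀ r c, (A r c).natDegree ≤ dg c) →
  len A.det ≤ (Fintype.card ι).factorial * ∏ c, B c ∧ A.det.natDegree ≤ ∑ c, dg c

/-- **A4.** Liouville's inequality.

Proof. Let `Q_ℂ = Q.map`, `a₀` its leading coefficient, `α_1 = α, .., α_d` its roots (with multiplicity).  By
`Polynomial.resultant_map_map`, `Polynomial.resultant_eq_prod_eval`: the integer `Res(Q, G)` (sizes `d`, `N`) equals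
`a₀^N ∏ G(α_i)`.  It is not `0`: if `G(α_i) = 0`, then, as `Q` is irreducible over `ℚ` (Gauss) with root `α_i`, `Q` divides `G` in
`ℚ[X]` (`minpoly`), so `G(α) = 0`: contradiction.  So `1 ≤ |a₀|^N ∏ ‖G(α_i)‖`, and for `i ≠ 1`
`‖G(α_i)‖ ≤ len G · max(1, ‖α_i‖)^N`.  `mah Q = |a₀| ∏ max(1, ‖α_i‖)` (`mahlerMeasure_eq_leadingCoeff_mul_prod_roots`). -/
def S_A4 : Prop := ∀ (Q G : Polynomial ℤ) (α : ℂ) (N : ℕ), Irreducible Q → 1 ≤ Q.natDegree →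
  Polynomial.aeval α Q = 0 → Polynomial.aeval α G ≠ 0 → G.natDegree ≤ N →
  1 ≤ mah Q ^ N * len G ^ (Q.natDegree - 1) * ‖Polynomial.aeval α G‖

/-- **A5.** Selection of rows.

Proof. The span of the vectors `v r` in `ι → ℂ` is everything (otherwise a nonzero functional `φ`, i.e. a nonzero `c`,
vanishes on it).  Choose a basis of `ι → ℂ` among the `v r` (`Basis.ofSpan`/`exists_linearIndependent`), indexed by `ι`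
(cardinality); its matrix has nonzero determinant. -/
def S_A5 : Prop := ∀ (ι R : Type) [Fintype ι] [DecidableEq ι] (v : R → ι → ℂ),
  (∀ c : ι → ℂ, (∀ r, ∑ i, c i * v r i = 0) → c = 0) →
  ∃ r : ι → R, Matrix.det (Matrix.of fun i j => v (r i) j) ≠ 0

/-- **A6.** Nonvanishing determinant.  (Uses `S_Z14`, `S_A5`.)

Proof. Let `R` be the type of the `(a, b, t, part)` with `|a| ≤ h`, `|b| ≤ h`, `t < T`, `v r = entR ..`.  If `c` is orthogonal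
to all `v r`, then it is orthogonal to all rows `entC α β a b t = entR .. 0 + I entR .. 1`.  Let
`F = ∑_c c_c X^c ∈ Box l n` (sum over `Col l n` of monomials, exponents `(i, j, k, e)`): the hypothesis of `S_Z14` holds with
`a₀ = b₀ = -h`, `M = 2h+1`; `F = 0`, so `c = 0`.  Apply `S_A5`. -/
def S_A6 : Prop := ∀ (L : PeriodPair) (w : ℝ), LemP L w → ∀ (l n h T : ℕ) (α β : ℂ),
  α ≠ 0 → β ≠ 0 → 2 * h + 1 ≤ 2 * l + 1 → (l + 1) ^ 2 ≤ T →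
  (2 * l + 1) ^ 2 * (2 * n + 1 + l) < (2 * h + 1) ^ 2 * (T + 1 - (l + 1) ^ 2) →
  ∃ r : Col l n → ℤ × ℤ × ℕ × Fin 2,
    (∀ c, |(r c).1| ≤ h ∧ |(r c).2.1| ≤ h ∧ (r c).2.2.1 < T) ∧
    Matrix.det (Matrix.of fun c' c : Col l n =>
      entR α β (r c').1 (r c').2.1 (r c').2.2.1 (r c').2.2.2 c) ≠ 0

/-! ## G. Algebraic approximation -/

/-- **G1.** Small values of polynomials (Dirichlet).

Proof. The `(H+1)^(D+1)` polynomials with coefficients in `{0, .., H}`, degree `≤ D`, have values at `w` in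
`[0, H (D+1) 4^D]`.  Divide this interval into `(H+1)^(D+1) - 1 ≥ H^(D+1)` equal parts: two different polynomials have values
in the same part (pigeonhole); their difference `P` has `|P(w)| ≤ H (D+1) 4^D / H^(D+1)`. -/
def S_G1 : Prop := ∀ (w : ℝ) (D H : ℕ), 0 ≤ w → w ≤ 4 → 1 ≤ H → ∃ P : Polynomial ℤ, P ≠ 0 ∧
  P.natDegree ≤ D ∧ (∀ i, |P.coeff i| ≤ H) ∧
  |Polynomial.aeval w P| ≤ ((D : ℝ) + 1) * 4 ^ D / (H : ℝ) ^ D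

/-- **G2.** An irreducible factor.

Proof. For `P ≠ 0` put `Φ(P) = |P(w)| mah(P)^A exp(B deg P)`; it is multiplicative (`mahlerMeasure_mul`,
`Real.mul_rpow`), `mah P ≥ 1`, and `Φ(unit) = 1`.  If all irreducible factors `Q` of `P` had `Φ(Q) ≥ 1` then `Φ(P) ≥ 1`
(`WfDvdMonoid.induction_on_irreducible` or `UniqueFactorizationMonoid`).  By hypothesis
`Φ(P) ≤ |P(w)| Y^A exp(B D) < 1`.  So some irreducible factor `Q` has `Φ(Q) < 1`.  If `deg Q = 0`, `Q` is an integer with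
`|Q| ≥ 1` and `Φ(Q) ≥ 1`; so `deg Q ≥ 1`.  `deg Q ≤ deg P ≤ D` and `mah Q ≤ mah P ≤ Y` (the cofactor has `mah ≥ 1`). -/
def S_G2 : Prop := ∀ (w A B Y : ℝ) (D : ℕ) (P : Polynomial ℤ), P ≠ 0 → P.natDegree ≤ D → mah P ≤ Y →
  0 ≤ A → 0 ≤ B → |Polynomial.aeval w P| * Y ^ A * Real.exp (B * D) < 1 →
  ∃ Q : Polynomial ℤ, Irreducible Q ∧ 1 ≤ Q.natDegree ∧ Q.natDegree ≤ D ∧ 1 ≤ mah Q ∧ mah Q ≤ Y ∧
    |Polynomial.aeval w Q| * mah Q ^ A * Real.exp (B * Q.natDegree) < 1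

/-- **G3.** The nearest root.

Proof. Let `d = deg Q`, `a₀ = |leading coefficient| ≥ 1`, `α_1, .., α_d` the roots, which are distinct (`Q` irreducible over `ℚ`,
characteristic `0`), `δ_i = ‖x - α_i‖`, numbered with `δ_1 ≤ δ_2 ≤ δ_i` (`i ≥ 3`).  Take `α = α_1`.  If `Q(x) = 0` then `δ_1 = 0`.
Let `Q(x) ≠ 0`, all `δ_i > 0`.  `‖Q(x)‖ = a₀ ∏ δ_i`.  If `d = 1`: `δ_1 ≤ ‖Q(x)‖ ≤ 1`, `δ_1^6 ≤ ‖Q(x)‖^4`.
Let `d ≥ 2`.  `Res(Q, Q') = ± a₀^(2d-1) ∏_{i≠j} (α_i - α_j)` is a nonzero integer (`resultant_eq_prod_eval` for `Q` and its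
derivative: `a₀^(d-1) ∏ Q'(α_i)`, `Q'(α_i) = a₀ ∏_{j≠i} (α_i - α_j)`), so `1 ≤ a₀^(2d-1) ∏_{i≠j} ‖α_i - α_j‖` (ordered pairs).
`‖α_1 - α_2‖ ≤ 2 δ_2`; for `j ≥ 3`: `‖α_1 - α_j‖, ‖α_2 - α_j‖ ≤ 2 δ_j`; for `i, j ≥ 3`:
`‖α_i - α_j‖ ≤ 2 max(1,‖α_i‖) max(1,‖α_j‖)`.  So
`1 ≤ a₀^(2d-1) (2δ_2)^2 ∏_{j≥3} (2δ_j)^4 · 2^((d-2)(d-3)) (∏_{i≥3} max(1,‖α_i‖))^(2(d-3))`  (last factor `1` for `d = 2`).
`∏_{j≥3} δ_j = ‖Q(x)‖/(a₀ δ_1 δ_2)`, `∏_{i≥3} max ≤ mah Q / a₀`.  So with `C = 2^(2 + 4(d-2) + (d-2)(d-3)) ≤ 2^((d+2)^2)`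
`δ_1^6 ≤ δ_1^4 δ_2^2 ≤ C a₀^(2d-5) ‖Q(x)‖^4 (mah Q/a₀)^(2(d-3)) = C a₀ ‖Q(x)‖^4 mah(Q)^(2d-6)` for `d ≥ 3`, and
`δ_1^4 δ_2^2 ≤ C a₀^(-1) ‖Q(x)‖^4` for `d = 2`; and `a₀ ≤ mah Q`, `1 ≤ mah Q`. -/
def S_G3 : Prop := ∀ (Q : Polynomial ℤ) (x : ℂ), Irreducible Q → 1 ≤ Q.natDegree →
  ‖Polynomial.aeval x Q‖ ≤ 1 → ∃ α : ℂ, Polynomial.aeval α Q = 0 ∧
  ‖x - α‖ ^ 6 ≤ 2 ^ ((Q.natDegree + 2) ^ 2) * ‖Polynomial.aeval x Q‖ ^ 4 * mah Q ^ (2 * Q.natDegree)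

/-- **G4.** Algebraic approximation of `w`.  (Uses `S_G1`, `S_G2`, `S_G3`.)

Proof. Let `H = ⌊e^x⌋ ≥ e^x/2` (`x ≥ 1`).  `S_G1` gives `P` with `mah P ≤ len P ≤ (D+1) e^x =: Y`
(`mahlerMeasure_le_sum_norm_coeff`), `|P(w)| ≤ (D+1) 4^D H^(-D) ≤ (D+1) 8^D e^(-Dx)`.  Put `A = (87/100) D`,
`B = (129/1000) x`.  `|P(w)| Y^A e^(BD) ≤ (D+1) 8^D (D+1)^A exp(-D x (1 - 0.87 - 0.129)) = C exp(-D x/1000) < 1` for
`x ≥ x₀`.  `S_G2` gives `Q` with `|Q(w)| < mah(Q)^(-A) e^(-B d) ≤ 1`, `d = deg Q`.  `S_G3` with `x = w`: with `m = log (mah Q) ≥ 0`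
`‖w - α‖ ≤ 2^((D+2)^2/6) exp(-(2/3)(0.87 D m + 0.129 x d) + (1/3) d m)` and `d ≤ D`:
`(2/3) 0.87 D m - (1/3) d m ≥ (0.58 - 1/3) D m = (37/150) D m`; `(2/3) 0.129 = 43/500`. -/
def S_G4 : Prop := ∀ (w : ℝ) (D : ℕ), 0 ≤ w → w ≤ 4 → 1 ≤ D → ∃ x₀ c₀ : ℝ, ∀ x ≥ x₀,
  ∃ (Q : Polynomial ℤ) (α : ℂ), Irreducible Q ∧ 1 ≤ Q.natDegree ∧ Q.natDegree ≤ D ∧
    Polynomial.aeval α Q = 0 ∧ 1 ≤ mah Q ∧ mah Q ≤ ((D : ℝ) + 1) * Real.exp x ∧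
    ‖(w : ℂ) - α‖ ≤ Real.exp (c₀ - 37 / 150 * D * Real.log (mah Q) - 43 / 500 * x * Q.natDegree)

/-! ## F. The end -/

/-- **F1.** The main inequality.  (Uses `S_A1`, `S_A2`, `S_A3`, `S_A4`, `S_A6`, `S_D4`, `S_S9` (only `Den > 0`).)

Proof. `β = p^4/(8 q^4 α^3) ≠ 0`.  Take the rows `r` from `S_A6` (`M = 2h+1`, `l + 1 = 6 M`: `(2l+1)^2 (2n+1+l) <
144 M^2 (2n+1+l) < M^2 (T + 1 - (l+1)^2)`).  `‖kap a b‖ ≤ M/√2` for `|a|, |b| ≤ h` (`|a + 1/2| ≤ M/2`), so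
`‖kap‖ w + 1/6 ≤ ρ` and `‖2 kap‖ ≤ ρ` (`w ≥ 2`).  `G = det (Epol (r c') c)`.  By `S_A1` (column factors,
`Matrix.det_mul_row`) `G(α) = ∏_c (2^(i+j) (8q^4)^j α^(3j) Den) · det entR ≠ 0`.  `‖α‖ ≤ w + 1 ≤ 4.2`, so
`‖∏_c ..‖ ≤ ∏_c (Den q^(4j) 2048^(2l))` (`2^(i+j) 8^j 4.2^(3j) ≤ 2^l (16 · 75)^l ≤ 2048^(2l)`).  `U = card Col = 2 n (l+1)^2`,
`∑_c 4 j = 2 l U`, `∑_c (i + 3j) = 2 l U`.  `S_A2`, `S_A3` (with `S = ρ`): `deg G ≤ 2 l U`,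
`len G ≤ U! ((272(ρ+2))^(2l) Den 2^n 4^T)^U q^(2lU)`.  `S_D4` bounds `‖det entR‖`.  `S_A4` with `N = 2lU`:
`0 ≤ 2lU log mah Q + (d-1) log len G + log ‖G(α)‖`.  Use `U! ≤ U^U ≤ (U+1)^U` and divide by `U`. -/
def S_F1 : Prop := ∀ (L : PeriodPair) (w : ℝ), LemP L w → ∀ (h l n T : ℕ) (p q : ℤ) (Q : Polynomial ℤ)
  (α : ℂ) (ρ ε : ℝ),
  l + 1 = 6 * (2 * h + 1) → 1 ≤ n → T = 144 * (2 * n + 1 + l) + (l + 1) ^ 2 →
  ρ = (2 * h + 1 : ℕ) * w / Real.sqrt 2 + 1 / 6 → 1 ≤ q → |(p : ℝ)| ≤ 4 * q → p ≠ 0 →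
  Irreducible Q → 1 ≤ Q.natDegree → 1 ≤ mah Q → Polynomial.aeval α Q = 0 → 0 ≤ ε → ε ≤ 1 →
  ‖α - w‖ ≤ ε → ‖(p : ℂ) ^ 4 / (8 * (q : ℂ) ^ 4 * α ^ 3) - (Real.pi / w : ℝ)‖ ≤ ε →
  ε * l * ρ * (2 * ρ) ^ (2 * l) * 2 ^ n * 8 ^ T ≤
    KK w l (2 * n + 1 + l) T ρ * Real.exp (-(2 * n * ((l : ℝ) + 1) ^ 2)) →
  (2 * n * ((l : ℝ) + 1) ^ 2 - 1) / 2 ≤
    Real.log (3 * KK w l (2 * n + 1 + l) T ρ) + 2 * Real.log (2 * n * ((l : ℝ) + 1) ^ 2 + 1)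
    + Real.log (Den l T) + 2 * l * Real.log 2048 + 2 * l * Real.log q + 2 * l * Real.log (mah Q)
    + ((Q.natDegree : ℝ) - 1) * (Real.log (2 * n * ((l : ℝ) + 1) ^ 2 + 1) + Real.log (Den l T)
      + n * Real.log 2 + T * Real.log 4 + 2 * l * Real.log (272 * (ρ + 2)) + 2 * l * Real.log q)

/-- **F2.** Numbers.  (Uses `S_S9`.)

Proof. Here `l + 1 = 900006 = 6 · 150001`, `m = (l+1)^2`, `D = 27931406 = ⌊m/29000⌋`, `M = 150001`.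
Divide by `n m`.  `log (3 KK) = T log 8 + 6P + 2l log(1 + eρ) + P (600 + π (eρ)²/(2w²)) + log 3`, `P = 2n + 1 + l`,
`(eρ)²/(2w²) = (e²/2)(M/√2 + 1/(6w))² ≤ (e²/4)(M + 0.118)²` (`w ≥ 2`), so
`log(3 KK) ≤ 2n (π e²/4)(M + 0.118)² + 2000 n + c ≤ 0.32241 n m + c'`.  (`π e²/4 ≤ 5.80336`, `m = 36 M²`.)
By `S_S9`, `log Den ≤ log 4 · T (1 + log(2l)) + 4 l √T log T`, `T = 288 n + c''`, `log(2l) ≤ 14.4034`, `log 4 ≤ 1.386295`: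
`log Den + T log 4 + n log 2 ≤ 6549.8 n + o(n)`, times `d ≤ D ≤ m/29000`: `≤ 0.225856 n m + o(n)`.  The remaining terms
(`log(..)`, constants) are `o(n)`; `2l log q · d + 2l log mah ≤ 0.4515 n m` by hypothesis.  Total
`≤ (0.32241 + 0.225856 + 0.4515) n m + o(n) ≤ 0.99977 n m + o(n) < n m - 1/2` for `n ≥ n₀`.
(`hq` plays the role of `log q`, `mQ` of `log (mah Q)`.) -/
def S_F2 : Prop := ∀ w : ℝ, 2 ≤ w → w ≤ Real.pi → ∃ n₀ : ℕ, ∀ n ≥ n₀, ∀ (d T : ℕ) (hq mQ ρ : ℝ),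
  1 ≤ d → d ≤ 27931406 → 0 ≤ hq → 0 ≤ mQ → T = 144 * (2 * n + 1 + 900005) + 900006 ^ 2 →
  ρ = 150001 * w / Real.sqrt 2 + 1 / 6 →
  2 * 900005 * mQ + 2 * 900005 * d * hq ≤ 0.4515 * n * 900006 ^ 2 →
  Real.log (3 * KK w 900005 (2 * n + 1 + 900005) T ρ) + 2 * Real.log (2 * n * (900006 : ℝ) ^ 2 + 1)
    + Real.log (Den 900005 T) + 2 * 900005 * Real.log 2048 + 2 * 900005 * hq + 2 * 900005 * mQ
    + ((d : ℝ) - 1) * (Real.log (2 * n * (900006 : ℝ) ^ 2 + 1) + Real.log (Den 900005 T)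
      + n * Real.log 2 + T * Real.log 4 + 2 * 900005 * Real.log (272 * (ρ + 2)) + 2 * 900005 * hq)
  < (2 * n * (900006 : ℝ) ^ 2 - 1) / 2

/-- **F3.** The condition on `ε`.

Proof. `KK ≥ 8^T e^{6P} (eρ)^(2l) exp(P (600 + π e² M²/4))` (`ρ² ≥ M² w²/2`), `(eρ)^(2l) ≥ (2ρ)^(2l)`, `P ≥ 2n`,
`π e²/4 ≥ 5.8033`, `m = 900006² = 36 M²`: `P π e² M²/4 ≥ 2 n · 5.8033 · m/36 ≥ 0.3224 n m`, and
`exp(606 P) ≥ l ρ 2^n` (`P ≥ n + 900006`).  So the right side divided by `l ρ (2ρ)^(2l) 2^n 8^T` is at least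
`exp(0.3224 n m - 2 n m) = exp(-1.6776 n m)`. -/
def S_F3 : Prop := ∀ (w ρ ε : ℝ) (n T : ℕ), 2 ≤ w → w ≤ Real.pi →
  ρ = 150001 * w / Real.sqrt 2 + 1 / 6 → 0 ≤ ε → ε ≤ Real.exp (-(1.6776 * n * 900006 ^ 2)) →
  ε * 900005 * ρ * (2 * ρ) ^ (2 * 900005) * 2 ^ n * 8 ^ T ≤
    KK w 900005 (2 * n + 1 + 900005) T ρ * Real.exp (-(2 * n * (900006 : ℝ) ^ 2))

/-- **F4.** The measure.  (Uses `S_F1`, `S_F2`, `S_F3`, `S_G4`, `S_E6`.)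

Proof. Take `L, w` from `S_E6`; `γ = Γ(1/4)`, `γ^4 = 8 π w² ≤ 8 π³ < 256`, so `0 < γ < 4`, and `π/w = γ^4/(8w³)`.  Let
`l = 900005`, `m = 900006²`, `D = 27931406`, `x₀, c₀` from `S_G4`, `n₀` from `S_F2`.  Suppose `q` is large and
`|γ - p/q| < q^(-10^15)`; `H = log q`; then `|p| ≤ 4 q`, `p ≠ 0`.  Let `x = 88 l H ≥ x₀`, `Q, α, d` from `S_G4`,
`mQ = log (mah Q)`, `0 ≤ mQ ≤ x + log(D+1)`.  Let `n = ⌈(2 l mQ + 2 l d H)/(0.4515 m)⌉`, so `n ≥ n₀` for large `q`,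
`0.4515 n m ≥ 2 l mQ + 2 l d H` and `1.6776 n m ≤ 7.4313 l mQ + 7.4313 l d H + 1.6776 m`.
`‖w - α‖ ≤ exp(c₀ - (37/150) D mQ - (43/500) 88 l H d)`; `(37/150) D ≥ 6889746 ≥ 7.4313 l = 6688207..`, `(43/500) 88 = 7.568`, so
`‖w - α‖ ≤ exp(c₀ - 7.4313 l mQ - 7.4313 l d H - 0.13 l H) ≤ exp(-1.6776 n m)/400` for large `q`.
`q^(-10^15) = exp(-10^15 H)`, and `1.6776 n m ≤ 7.4313 l (88 l H + log(D+1)) + 7.4313 l D H + 1.6776 m ≤ 7.17 · 10^14 H + c`,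
so `q^(-10^15) ≤ exp(-1.6776 n m)/400`.  `β = p^4/(8 q^4 α^3)`: `‖α‖ ≥ 1`, `‖α‖ ≤ 4`,
`‖β - π/w‖ ≤ |(p/q)^4 - γ^4|/(8‖α‖^3) + (γ^4/8) ‖α^3 - w^3‖/(‖α‖^3 w^3) ≤ 32 |p/q - γ| + 192 ‖α - w‖`.  So with
`ε = exp(-1.6776 n m)` all hypotheses of `S_F1` hold (`S_F3`; `h = 75000`, `2h+1 = 150001`), and its conclusion contradicts
`S_F2` (`hq = log q`). -/
def S_F4 : Prop := ∃ q₀ : ℕ, ∀ (p q : ℤ), (q₀ : ℤ) ≤ q →
  (q : ℝ) ^ (-(10 : ℝ) ^ 15) ≤ |Real.Gamma (1 / 4) - p / q|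

/-- **F5.** The irrationality exponent.  (Uses `S_F4`.)

Proof. Let `μ > 10^15` be admissible.  The set of pairs `(p, q)` is infinite; those with `q < q₀` are finite in number (for
each `q`, `|p| ≤ q (|x| + 1)`), so there is one with `q ≥ max(q₀, 2)`: `|x - p/q| < q^(-μ) ≤ q^(-10^15)`: contradiction to
`S_F4`.  So all admissible `μ` are `≤ 10^15`, and the supremum is. -/
def S_F5 : Prop := irrExp (Real.Gamma (1 / 4)) ≤ 10 ^ 15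

end Pool.Agent.MPb60633
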