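import Pool.Agent.Lib.MP_b60633_nt.Defs

/-!
# MP_b60633_nt, Spec E: the lemniscate lattice, growth (helper11)

Every `S_...` is a statement to be proved in its own file; the docstring contains the complete proof.
Notation: `σ = sigmaW L`, `ζ = zetaW L`, `℘ = L.weierstrassP`, `℘' = L.derivWeierstrassP`,
`η = etaW L`, `Λ = L.lattice`; with `Sq L w`: `Λ = {(a + b I) w : a b ∈ ℤ}` (`PeriodPair.mem_lattice`), and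
`L.ω₂ = I * L.ω₁`, so that the lemmas of `Ribet4b482e.CM` apply (`g₃_eq_zero`, `weierstrassP_I_mul`,
`derivWeierstrassP_I_mul`, `sigmaW_I_mul`, `zetaW_I_mul`, `etaW_ω₂`, `I_mul_mem`), as do those of `Quasi`
(`zetaW_add`, `etaW_add`, `etaW_neg`, `etaW_zsmul`, `etaW_eq_two_mul`, `hasDerivAt_sigmaW`, `exists_sigmaW_add`),
`Addition` (`hasDerivAt_weierstrassP`, `hasDerivAt_derivWeierstrassP`, `derivWeierstrassP_ne_zero`,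
`derivWeierstrassP_eq_zero`, `weierstrassP_eq_iff`), `Sigma` (`hasDerivAt_zetaW`, `norm_elemFac_le`,
`summable_norm_inv_three`, `multipliable_elemFac` in `Growth`).
-/

set_option autoImplicit false

namespace Pool.Agent.MPb60633

open Complex Pool.Agent.Lib.Ribet4b482e

/-- **E1.** Complex conjugation.

Proof. `l ↦ conj l` is a bijection of `Λ` (`(a + b I) w ↦ (a - b I) w`).  Reindex the sum
`℘ z = ∑' l, (1 / (z - l)^2 - 1 / l^2)` by it and use that `conj` commutes with `tsum` (`Complex.conj_tsum` or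
`Function.LeftInverse`/`Equiv.tsum_eq`). -/
def S_E1 : Prop := ∀ (L : PeriodPair) (w : ℝ), Sq L w →
  (∀ z : ℂ, z ∈ L.lattice ↔ (starRingEnd ℂ) z ∈ L.lattice) ∧
  (∀ z : ℂ, (starRingEnd ℂ) (L.weierstrassP z) = L.weierstrassP ((starRingEnd ℂ) z))

/-- **E2.** Existence.  (Uses `S_E1`.)

Proof. `L₁ = squarePair 1` satisfies `Sq L₁ 1`.  Let `e = ℘(1/2)`; `e` is real by `S_E1`.  `℘'(1/2) = 0`
(`derivWeierstrassP_eq_zero`), `g₃ = 0` (`g₃_eq_zero`), so `4 e^3 - g₂ e = 0` (`PeriodPair.derivWeierstrassP_sq`).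
`e ≠ 0`: `℘(I/2) = - ℘(1/2)` (`weierstrassP_I_mul`), so `e = 0` would give `℘(I/2) = ℘(1/2)`, and by
`weierstrassP_eq_iff` `1/2 + I/2 ∈ Λ` or `I/2 - 1/2 ∈ Λ`: false (`mem_lattice`, compare real parts).  So
`g₂(L₁) = 4 e^2` is a positive real number `4 g`.  Let `w = g^(1/4) > 0`; `L = squarePair w` has
`g₂ = g₂(L₁) / w^4 = 4` (`squarePair_g₂`). -/
def S_E2 : Prop := ∃ (L : PeriodPair) (w : ℝ), Lem L w

/-- **E3.** The values at the points of order two.  (Uses `S_E1`.)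

Proof. Let `e = ℘(w/2)`, `v = (1 + I) w / 2`, `e' = ℘(v)`.  As in `S_E2` (now `g₂ = 4`): `e` is real, `e ≠ 0`,
`e^3 = e`, so `e = 1` or `e = -1`; `℘(I w/2) = - e`.  `e'^3 = e'` and `e' ≠ e`, `e' ≠ -e` (`weierstrassP_eq_iff`: the sums
and differences of two different ones among `w/2, I w/2, v` are not in `Λ`), so `e' = 0`.  Suppose `e = -1`.  On
`(0, w/2]` the function `t ↦ ℘(t)` is real (`S_E1`) and continuous, and it tends to `+∞` for `t → 0+`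
(`weierstrassP_eq_add` in `Ribet4b482e.Liouville`: `℘ z = ℘Except 0 z + 1 / z^2`, `℘Except 0` is continuous at `0`).
As `℘(w/2) = -1 < 0` there is `t ∈ (0, w/2)` with `℘(t) = 0 = ℘(v)`.  By `weierstrassP_eq_iff` `t + v ∈ Λ` or
`t - v ∈ Λ`, but the imaginary parts are `± w/2`, not in `w ℤ`: contradiction.  So `e = 1`. -/
def S_E3 : Prop := ∀ (L : PeriodPair) (w : ℝ), Lem L w →
  L.weierstrassP ((w : ℂ) / 2) = 1 ∧ L.weierstrassP (I * (w : ℂ) / 2) = -1 ∧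
  L.weierstrassP ((1 + I) * (w : ℂ) / 2) = 0

/-- **E4.** The periods are Beta integrals.  (Uses `S_E1`, `S_E3`.)

Proof. Let `z(t) = I w/2 + t` for `t ∈ [0, w/2]`; `z(t) ∉ Λ` (imaginary part).  `conj z(t) = z(t) - I w`, so by `S_E1`
and periodicity `℘(z(t))` is real; let `g(t)` be its real part.  `g` is differentiable with derivative
`g'(t) = ℘'(z(t))` (real as well, as a limit of real difference quotients, or `g' = re ℘'(z(t))` and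
`HasDerivAt` of the real part), `g(0) = -1`, `g(w/2) = 0` (`S_E3`), `g'^2 = 4 g^3 - 4 g` (`derivWeierstrassP_sq`,
`g₃ = 0`).  For `t ∈ (0, w/2)`: `2 z(t) = I w + 2 t ∉ Λ`, so `g'(t) ≠ 0` (`derivWeierstrassP_ne_zero`).  By Darboux
(or `strictMonoOn` from the nonvanishing continuous derivative) `g` is strictly monotone on `[0, w/2]`, so strictly
increasing from `-1` to `0`.  Put `u(t) = g(t)^2`: injective on `(0, w/2)` with image `(0, 1)`, derivative `2 g g'`,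
`|u'| = 2 |g| |g'| = 4 u^(3/4) (1 - u)^(1/2)`, as `g'^2 = 4 (-g)(1 - g^2) = 4 u^(1/2) (1 - u)`.  Change of
variables `MeasureTheory.integral_image_eq_integral_abs_deriv_smul` with `F(u) = u^(-3/4) (1-u)^(-1/2)`:
`∫_{(0,1)} F = ∫_{(0, w/2)} |u'(t)| F(u(t)) dt = ∫_{(0, w/2)} 4 dt = 2 w`.
With `F(u) = u^(-1/4) (1-u)^(-1/2)`: `|u'| F(u) = 4 u^(1/2) = - 4 g(t)`, so `∫_{(0,1)} F = - 4 ∫_0^{w/2} ℘(z(t)) dt
= 4 (ζ(z(w/2)) - ζ(z(0)))` (`hasDerivAt_zetaW`, fundamental theorem) `= 4 (ζ((1+I) w/2) - ζ(I w/2))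
= 2 (η((1+I) w) - η(I w)) = 2 η(w)` (`etaW_eq_two_mul`, `etaW_add`). -/
def S_E4 : Prop := ∀ (L : PeriodPair) (w : ℝ), Lem L w →
  w = (1 / 2) * ∫ u in Set.Ioo (0 : ℝ) 1, u ^ (-(3 : ℝ) / 4) * (1 - u) ^ (-(1 : ℝ) / 2) ∧
  etaW L (w : ℂ) =
    (((1 / 2) * ∫ u in Set.Ioo (0 : ℝ) 1, u ^ (-(1 : ℝ) / 4) * (1 - u) ^ (-(1 : ℝ) / 2) : ℝ) : ℂ)

/-- **E5.** The Beta integrals `B₁ = B(1/4, 1/2)`, `B₂ = B(3/4, 1/2)`.

Proof. `Complex.betaIntegral u v = ∫ x in 0..1, x^(u-1) (1-x)^(v-1)` and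
`Complex.Gamma_mul_Gamma_eq_betaIntegral`: `Γ(u) Γ(v) = Γ(u+v) B(u,v)` (pass to real numbers with `Complex.ofReal_cpow`,
`Complex.Gamma_ofReal`, `integral_ofReal`, `intervalIntegral.integral_of_le`, `integral_Ioc_eq_integral_Ioo`).
`B₁ = Γ(1/4) Γ(1/2) / Γ(3/4)`, `Γ(1/2) = √π`, `Γ(1/4) Γ(3/4) = π / sin(π/4) = π √2` (`Real.Gamma_mul_Gamma_one_sub`), so
`(B₁/2)^2 = Γ(1/4)^4 π / (4 · 2 π^2) = Γ(1/4)^4 / (8 π)`.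
`B₂ = Γ(3/4) Γ(1/2) / Γ(5/4)`, `Γ(5/4) = Γ(1/4)/4` (`Real.Gamma_add_one`), so `B₁ B₂ = 4 Γ(1/2)^2 = 4 π`.
`B₁ ≥ ∫ u^(-3/4) = 4` and `B₂ ≥ ∫ (1-u)^(-1/2) = 2` by monotonicity (the integrands of `B₁`, `B₂` are integrable:
`Complex.betaIntegral_convergent`, and `(1-u)^(-1/2) ≥ 1`, `u^(-1/4) ≥ 1`). -/
def S_E5 : Prop :=
  ((∫ u in Set.Ioo (0 : ℝ) 1, u ^ (-(3 : ℝ) / 4) * (1 - u) ^ (-(1 : ℝ) / 2)) / 2) ^ 2
    = Real.Gamma (1 / 4) ^ 4 / (8 * Real.pi) ∧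
  (∫ u in Set.Ioo (0 : ℝ) 1, u ^ (-(3 : ℝ) / 4) * (1 - u) ^ (-(1 : ℝ) / 2)) *
    (∫ u in Set.Ioo (0 : ℝ) 1, u ^ (-(1 : ℝ) / 4) * (1 - u) ^ (-(1 : ℝ) / 2)) = 4 * Real.pi ∧
  4 ≤ (∫ u in Set.Ioo (0 : ℝ) 1, u ^ (-(3 : ℝ) / 4) * (1 - u) ^ (-(1 : ℝ) / 2)) ∧
  2 ≤ (∫ u in Set.Ioo (0 : ℝ) 1, u ^ (-(1 : ℝ) / 4) * (1 - u) ^ (-(1 : ℝ) / 2))

/-- **E6.** The lemniscate lattice with its constants.  (Uses `S_E2`, `S_E3`, `S_E4`, `S_E5`.)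

Proof. Take `L, w` from `S_E2`.  `w = B₁/2`, `η(w) = B₂/2`, `B₁ B₂ = 4 π`, so `η(w) = π / w`; `2 ≤ w`;
`w = π / (B₂/2) ≤ π`. -/
def S_E6 : Prop := ∃ (L : PeriodPair) (w : ℝ), LemP L w

/-- **E7.** The lattice sum.

Proof. `Λ ≃ ℤ × ℤ` (`L.latticeEquivProd`, or directly) with `l = (a + b I) w`, `‖l‖ ≥ max(|a|, |b|) w`.  It is enough to
bound finite partial sums (`Summable.tsum_le_of_sum_le` / `tsum_le_of_sum_le'`, `summable_norm_inv_three`).  A finite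
set of pairs `(a, b)` lies in the union of the boxes `Finset.box k`, `k ≤ N` (`Int.mem_box`: `max |a| |b| = k`;
`Int.existsUnique_mem_box`); the term of `(0,0)` is `0^(-3) = 0`; the box `k ≥ 1` has `8 k` elements
(`Int.card_box`) and contributes at most `8 k / (k w)^3 = 8 / (w^3 k^2)`; `∑_{k=1}^N 1 / k^2 ≤ 2`
(`1/k^2 ≤ 1/(k-1) - 1/k` for `k ≥ 2`, or `sum_Ioc_inv_sq_le_sub`). -/
def S_E7 : Prop := ∀ (L : PeriodPair) (w : ℝ), Sq L w →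
  ∑' l : L.lattice, ‖(l : ℂ)‖ ^ (-3 : ℤ) ≤ 16 / w ^ 3

/-- **E8.** `σ` near `0`.  (Uses `S_E7`.)

Proof. `σ z = z ∏' l, elemFac (z / l)` (`sigmaW_eq`), the norm of the product is the limit of the finite products of
the norms (`multipliable_elemFac`, `HasProd.norm`, as in `norm_sigmaW_le`).  Put `S = ∑' ‖l‖^(-3) ≤ 16 / w^3`.
Upper bound: `‖elemFac u‖ ≤ exp(16 ‖u‖^3)` (`norm_elemFac_le`), so the product is at most `exp(16 ‖z‖^3 S)`.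
Lower bound: for `‖u‖ ≤ 2/3`: `exp(-‖u‖^3) ≤ ‖elemFac u‖`: `1 - u = exp(log(1 - u))`, `elemFac u =
exp(log(1-u) + u + u^2/2)` and `‖log(1-u) + u + u^2/2‖ ≤ ‖u‖^3 (1-‖u‖)⁻¹ / 3 ≤ ‖u‖^3`
(`Complex.norm_log_sub_logTaylor_le` with `n = 2`, `z = -u`).  For `‖z‖ ≤ 2w/3` all `l ≠ 0` satisfy `‖z/l‖ ≤ 2/3`
(`‖l‖ ≥ w`; for `l = 0`, `z / 0 = 0`), so the product is at least `exp(-‖z‖^3 S) ≥ exp(-16 · 8/27) ≥ exp(-5)`. -/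
def S_E8 : Prop := ∀ (L : PeriodPair) (w : ℝ), Sq L w →
  (∀ z : ℂ, ‖sigmaW L z‖ ≤ ‖z‖ * Real.exp (256 * (‖z‖ / w) ^ 3)) ∧
  (∀ z : ℂ, ‖z‖ ≤ 2 / 3 * w → ‖z‖ * Real.exp (-5) ≤ ‖sigmaW L z‖)

/-- **E9.** Quasi-periodicity.

Proof. (i) `η((a + b I) w) = a η(w) + b η(I w) = (a - b I) π / w` (`etaW_add`, `etaW_zsmul`, `etaW_ω₂`:
`η(I w) = - I η(w)`).
(ii) Let `Q(l)` be the statement: for all `z`, `‖σ(z + l)‖ exp(-Gs(z + l)) = ‖σ z‖ exp(-Gs z)`.  `Q` is additive in `l`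
and `Q(l) ↔ Q(-l)`, so `Q(w)` and `Q(I w)` suffice.  `Q(w)`: `exists_sigmaW_add` gives `C` with
`σ(z + w) = C exp(η(w) z) σ z`; `z = -w/2` and `sigmaW_neg` give `C = - exp(η(w) w / 2)`, so
`‖σ(z+w)‖ = exp(π/2 + π re z / w) ‖σ z‖`, and `Gs(z + w) - Gs z = π (2 w re z + w^2) / (2 w^2)`.
`Q(I w)`: `‖σ(I z)‖ = ‖σ z‖` (`sigmaW_I_mul`), `Gs(I z) = Gs z`, `z + I w = I (w - I z)`, so
`‖σ(z + I w)‖ = ‖σ(-I z + w)‖` and `Q(w)` at `- I z` gives it.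
(iii) For `l ∈ Λ` let `C` be from `exists_sigmaW_add`.  For `z ∉ Λ`, `σ z ≠ 0` and (ii) gives
`‖C exp(η(l) z)‖ = exp(Gs(z+l) - Gs z)`; both sides are continuous in `z` and `Λᶜ` is dense (`dense_compl`). -/
def S_E9 : Prop := ∀ (L : PeriodPair) (w : ℝ), LemP L w →
  (∀ a b : ℤ, etaW L (((a : ℂ) + b * I) * w) = ((a : ℂ) - b * I) * (Real.pi / w)) ∧
  (∀ l ∈ L.lattice, ∃ C : ℂ, C ≠ 0 ∧ ∀ z : ℂ,
    sigmaW L (z + l) = C * Complex.exp (etaW L l * z) * sigmaW L z ∧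
    ‖C * Complex.exp (etaW L l * z)‖ = Real.exp (Gs w (z + l) - Gs w z))

/-- **E10.** The functions `A1, A2, A3`.

Proof. Differentiability: `differentiable_sigmaW` and derivatives of entire functions.  Off the lattice: `σ' = ζ σ`
(`hasDerivAt_sigmaW`), `ζ' = -℘` (`hasDerivAt_zetaW`), `℘' ` the derivative of `℘`; so in the open set `Λᶜ`:
`σ'' = (ζ^2 - ℘) σ`, `σ''' = (ζ^3 - 3 ζ ℘ - ℘') σ`, and `A2 = ζ^2 σ^2 - (ζ^2 - ℘) σ^2 = ℘ σ^2`,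
`A3 = (3 ζ (ζ^2 - ℘) - (ζ^3 - 3 ζ ℘ - ℘') - 2 ζ^3) σ^3 = ℘' σ^3`.
Transformation: with `E(z) = C exp(η z)`, `σ(z+l) = E σ`, `E' = η E`: `σ'(z+l) = E (σ' + η σ)`,
`σ''(z+l) = E (σ'' + 2 η σ' + η^2 σ)`, `σ'''(z+l) = E (σ''' + 3 η σ'' + 3 η^2 σ' + η^3 σ)`; insert and `ring`. -/
def S_E10 : Prop := ∀ (L : PeriodPair),
  (Differentiable ℂ (A1 L) ∧ Differentiable ℂ (A2 L) ∧ Differentiable ℂ (A3 L)) ∧
  (∀ z, z ∉ L.lattice → A1 L z = zetaW L z * sigmaW L z ∧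
    A2 L z = L.weierstrassP z * sigmaW L z ^ 2 ∧ A3 L z = L.derivWeierstrassP z * sigmaW L z ^ 3) ∧
  (∀ (l h C : ℂ), (∀ z, sigmaW L (z + l) = C * Complex.exp (h * z) * sigmaW L z) → ∀ z,
    A1 L (z + l) = C * Complex.exp (h * z) * (A1 L z + h * sigmaW L z) ∧
    A2 L (z + l) = (C * Complex.exp (h * z)) ^ 2 * A2 L z ∧
    A3 L (z + l) = (C * Complex.exp (h * z)) ^ 3 * A3 L z)

/-- **E11.** Growth.  (Uses `S_E8`, `S_E9`, `S_E10`.)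

Proof. Let `z = z₀ + l`, `l = (a + b I) w ∈ Λ`, `|re z₀| ≤ w/2`, `|im z₀| ≤ w/2` (`a = round (re z / w)` etc.), so
`‖z₀‖ ≤ w/√2 ≤ 3w/4`.  For `‖s‖ ≤ 5w/4`: `‖σ s‖ ≤ (5w/4) exp(256 (5/4)^3) ≤ 4 e^500` (`S_E8`, `w ≤ π ≤ 3.15`).
Cauchy's estimates (`Complex.norm_iteratedDeriv_le_of_forall_mem_sphere_norm_le`) on the circle of radius `w/2 ≥ 1` about `z₀`: `‖σ' z₀‖ ≤ 4 e^500`,
`‖σ'' z₀‖ ≤ 8 e^500`, `‖σ''' z₀‖ ≤ 24 e^500`; so `‖A2 z₀‖ ≤ 48 e^1000`, `‖A3 z₀‖ ≤ 896 e^1500`.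
By `S_E9`, `S_E10` with `E = C exp(η(l) z₀)`, `‖E‖ = exp(Gs z - Gs z₀) ≤ exp(Gs z)`: `‖σ z‖ ≤ ‖E‖ ‖σ z₀‖`,
`‖A2 z‖ = ‖E‖^2 ‖A2 z₀‖`, `‖A3 z‖ = ‖E‖^3 ‖A3 z₀‖` and `‖A1 z‖ ≤ ‖E‖ (4 e^500 + ‖η(l)‖ 4 e^500)`,
`‖η(l)‖ = ‖l‖ π / w^2 ≤ ‖l‖ ≤ ‖z‖ + 3w/4 ≤ ‖z‖ + 3`.  Use `4 · 4 ≤ e^100` etc. -/
def S_E11 : Prop := ∀ (L : PeriodPair) (w : ℝ), LemP L w → ∀ z : ℂ,
  ‖sigmaW L z‖ ≤ Real.exp (600 + Gs w z) ∧
  ‖A1 L z‖ ≤ (1 + ‖z‖) * Real.exp (600 + Gs w z) ∧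
  ‖A2 L z‖ ≤ Real.exp (2 * (600 + Gs w z)) ∧
  ‖A3 L z‖ ≤ Real.exp (3 * (600 + Gs w z))

/-- **E12.** The functions `gfun`.  (Uses `S_E10`, `S_E11`.)

Proof. Differentiability and the formula off the lattice from `S_E10` (`j + 2k + 3e + (P - j - 2k - 3e) = P`).
The bound: multiply the bounds of `S_E11`; `‖z‖^i ≤ (1+‖z‖)^i`; the exponents of `exp(600 + Gs)` add up to `P`. -/
def S_E12 : Prop := ∀ (L : PeriodPair) (w : ℝ), LemP L w → ∀ P i j k e : ℕ,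
  Differentiable ℂ (gfun L P i j k e) ∧
  (j + 2 * k + 3 * e ≤ P →
    (∀ z, z ∉ L.lattice → gfun L P i j k e z =
      z ^ i * zetaW L z ^ j * L.weierstrassP z ^ k * L.derivWeierstrassP z ^ e * sigmaW L z ^ P) ∧
    (∀ z : ℂ, ‖gfun L P i j k e z‖ ≤ (1 + ‖z‖) ^ (i + j) * Real.exp (P * (600 + Gs w z))))

/-- **E13.** `σ` is not small near the points `κ w`.  (Uses `S_E8`, `S_E9`.)

Proof. `z = κ w + u = z₀ + l`, `z₀ = w/2 + u`, `l = (a + b I) w ∈ Λ`.  `‖z₀‖ ≤ w/2 + 1/6 ≤ (7/12) w ≤ (2/3) w` (`w ≥ 2`) and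
`‖z₀‖ ≥ w/2 - 1/6 ≥ 5/6`.  By `S_E9` `‖σ z‖ = exp(Gs z - Gs z₀) ‖σ z₀‖ ≥ exp(-Gs z₀) ‖z₀‖ exp(-5)` (`S_E8`),
`Gs z₀ ≤ π (7/12)^2 / 2 ≤ 0.54`, `(5/6) exp(-0.54) ≥ exp(-1)`.  So `‖σ z‖ ≥ exp(-6)`, and `z ∉ Λ` as `σ` vanishes
on `Λ`. -/
def S_E13 : Prop := ∀ (L : PeriodPair) (w : ℝ), LemP L w → ∀ (a b : ℤ) (u : ℂ), ‖u‖ ≤ 1 / 6 →
  kap a b * w + u ∉ L.lattice ∧ Real.exp (-6) ≤ ‖sigmaW L (kap a b * w + u)‖

end Pool.Agent.MPb60633
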